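import Pool.Agent.N763.MQ.Core

/-!
# Anisotropic forms over a locally compact field which is not algebraically closed (helper763)
-/

set_option autoImplicit false

namespace Pool.Agent.N763.MQ

open MvPolynomial Filter Topology

/-- the binary form with coefficients `f` -/
def bf {R : Type} [CommSemiring R] (m : ℕ) (f : ℕ → R) (a b : R) : R :=
  ∑ i ∈ Finset.range (m + 1), f i * a ^ i * b ^ (m - i)

theorem bf_left {R : Type} [Field R] (m : ℕ) (f : ℕ → R) (a b : R) (ha : a ≠ 0) :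
    bf m f a b = a ^ m * bf m f 1 (b / a) := by
  unfold bf
  rw [Finset.mul_sum]
  refine Finset.sum_congr rfl fun i hi => ?_
  have h1 : i ≤ m := Nat.lt_succ_iff.1 (Finset.mem_range.1 hi)
  obtain ⟨j, rfl⟩ := Nat.exists_eq_add_of_le h1
  rw [Nat.add_sub_cancel_left, div_pow, pow_add, one_pow]
  field_simp

theorem bf_right {R : Type} [Field R] (m : ℕ) (f : ℕ → R) (a b : R) (hb : b ≠ 0) :
    bf m f a b = b ^ m * bf m f (a / b) 1 := by
  unfold bf
  rw [Finset.mul_sum]
  refine Finset.sum_congr rfl fun i hi => ?_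
  have h1 : i ≤ m := Nat.lt_succ_iff.1 (Finset.mem_range.1 hi)
  obtain ⟨j, rfl⟩ := Nat.exists_eq_add_of_le h1
  rw [Nat.add_sub_cancel_left, div_pow, pow_add, one_pow]
  field_simp

theorem anis {K L : Type} [Field K] [NontriviallyNormedField L] [ProperSpace L] (σ : K →+* L)
    (hσ : DenseRange σ) (hL : ¬ IsAlgClosed L) :
    ∃ (m : ℕ) (f : ℕ → K) (c : ℝ), m ≠ 0 ∧ 0 < c ∧ ∀ a b : L,
      c * ‖a‖ ^ m ≤ ‖bf m (fun i => σ (f i)) a b‖ ∧ c * ‖b‖ ^ m ≤ ‖bf m (fun i => σ (f i)) a b‖ := by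
  have h1 : ∃ p : Polynomial L, p.Monic ∧ Irreducible p ∧ ∀ x, p.eval x ≠ 0 := by
    by_contra hcon
    push Not at hcon
    exact hL (IsAlgClosed.of_exists_root L fun p hp hi => hcon p hp hi)
  obtain ⟨p, hp, hi, hr⟩ := h1
  set m := p.natDegree with hm
  have hm0 : m ≠ 0 := hi.natDegree_pos.ne'
  have e1 : ∀ a : L, bf m p.coeff a 1 = p.eval a := by
    intro a
    unfold bf
    rw [Polynomial.eval_eq_sum_range]
    exact Finset.sum_congr rfl fun i _ => by rw [one_pow, mul_one]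
  have n1 : ∀ a : L, bf m p.coeff a 1 ≠ 0 := fun a => by rw [e1]; exact hr a
  have n2 : ∀ b : L, bf m p.coeff 1 b ≠ 0 := by
    intro b
    by_cases hb : b = 0
    · subst hb
      unfold bf
      rw [Finset.sum_eq_single_of_mem m (Finset.self_mem_range_succ m)]
      · rw [Nat.sub_self, pow_zero, one_pow, mul_one, mul_one]
        rw [hm, Polynomial.coeff_natDegree, hp.leadingCoeff]
        exact one_ne_zero
      · intro i hi hne
        have : m - i ≠ 0 := by
          have := Finset.mem_range.1 hi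
          omega
        rw [zero_pow this, mul_zero]
    · rw [bf_right m _ _ _ hb]
      exact mul_ne_zero (pow_ne_zero _ hb) (n1 _)
  have hc1 : Continuous fun a : L => ‖bf m p.coeff a 1‖ := by
    unfold bf
    fun_prop
  have hc2 : Continuous fun b : L => ‖bf m p.coeff 1 b‖ := by
    unfold bf
    fun_prop
  have hcpt : IsCompact (Metric.closedBall (0 : L) 1) := isCompact_closedBall _ _
  have hne : (Metric.closedBall (0 : L) 1).Nonempty := ⟨0, Metric.mem_closedBall_self zero_le_one⟩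
  obtain ⟨a₀, -, ha₀⟩ := hcpt.exists_isMinOn hne hc1.continuousOn
  obtain ⟨b₀, -, hb₀⟩ := hcpt.exists_isMinOn hne hc2.continuousOn
  set δ := min ‖bf m p.coeff a₀ 1‖ ‖bf m p.coeff 1 b₀‖ with hδ
  have hδ0 : 0 < δ := lt_min (norm_pos_iff.2 (n1 _)) (norm_pos_iff.2 (n2 _))
  have hd1 : ∀ a : L, ‖a‖ ≤ 1 → δ ≤ ‖bf m p.coeff a 1‖ := fun a ha =>
    (min_le_left _ _).trans (ha₀ (mem_closedBall_zero_iff.2 ha))
  have hd2 : ∀ a : L, ‖a‖ ≤ 1 → δ ≤ ‖bf m p.coeff 1 a‖ := fun a ha =>
    (min_le_right _ _).trans (hb₀ (mem_closedBall_zero_iff.2 ha))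
  have hε : 0 < δ / (2 * (m + 1)) := by positivity
  have happ : ∀ i, ∃ y : K, dist (p.coeff i) (σ y) < δ / (2 * (m + 1)) := fun i =>
    hσ.exists_dist_lt (p.coeff i) hε
  choose f hf using happ
  have hdiff : ∀ a b : L, ‖a‖ ≤ 1 → ‖b‖ ≤ 1 →
      ‖bf m p.coeff a b‖ - δ / 2 ≤ ‖bf m (fun i => σ (f i)) a b‖ := by
    intro a b ha hb
    have h2 : ‖bf m p.coeff a b - bf m (fun i => σ (f i)) a b‖ ≤ δ / 2 := by
      unfold bf
      rw [← Finset.sum_sub_distrib]
      have h3 : ∀ i ∈ Finset.range (m + 1), ‖p.coeff i * a ^ i * b ^ (m - i) -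
          σ (f i) * a ^ i * b ^ (m - i)‖ ≤ δ / (2 * (m + 1)) := by
        intro i _
        have h4 : p.coeff i * a ^ i * b ^ (m - i) - σ (f i) * a ^ i * b ^ (m - i) =
            (p.coeff i - σ (f i)) * (a ^ i * b ^ (m - i)) := by ring
        rw [h4, norm_mul, norm_mul, norm_pow, norm_pow]
        have h5 : ‖p.coeff i - σ (f i)‖ ≤ δ / (2 * (m + 1)) := by
          rw [← dist_eq_norm]; exact (hf i).le
        have h6 : ‖a‖ ^ i * ‖b‖ ^ (m - i) ≤ 1 :=
          mul_le_one₀ (pow_le_one₀ (norm_nonneg _) ha) (by positivity)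
            (pow_le_one₀ (norm_nonneg _) hb)
        calc _ ≤ δ / (2 * (m + 1)) * 1 := mul_le_mul h5 h6 (by positivity) hε.le
          _ = _ := mul_one _
      refine (norm_sum_le_of_le _ h3).trans ?_
      rw [Finset.sum_const, Finset.card_range, nsmul_eq_mul]
      push_cast
      have : (m : ℝ) + 1 ≠ 0 := by positivity
      apply le_of_eq
      field_simp
    have h7 := norm_sub_norm_le (bf m p.coeff a b) (bf m (fun i => σ (f i)) a b)
    linarith
  have hs1 : ∀ a : L, ‖a‖ ≤ 1 → δ / 2 ≤ ‖bf m (fun i => σ (f i)) a 1‖ := fun a ha => by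
    have := hdiff a 1 ha (by rw [norm_one])
    have := hd1 a ha
    linarith
  have hs2 : ∀ b : L, ‖b‖ ≤ 1 → δ / 2 ≤ ‖bf m (fun i => σ (f i)) 1 b‖ := fun b hb => by
    have := hdiff 1 b (by rw [norm_one]) hb
    have := hd2 b hb
    linarith
  refine ⟨m, f, δ / 2, hm0, by positivity, fun a b => ?_⟩
  rcases le_total ‖b‖ ‖a‖ with hab | hab
  · have key : δ / 2 * ‖a‖ ^ m ≤ ‖bf m (fun i => σ (f i)) a b‖ := by
      by_cases ha : a = 0
      · subst ha
        rw [norm_zero, zero_pow hm0, mul_zero]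
        exact norm_nonneg _
      · have ha' : 0 < ‖a‖ := norm_pos_iff.2 ha
        rw [bf_left m _ _ _ ha, norm_mul, norm_pow, mul_comm]
        exact mul_le_mul_of_nonneg_left (hs2 _ (by
          rw [norm_div]; exact (div_le_one ha').2 hab)) (by positivity)
    refine ⟨key, le_trans ?_ key⟩
    exact mul_le_mul_of_nonneg_left (pow_le_pow_left₀ (norm_nonneg _) hab m) (by positivity)
  · have key : δ / 2 * ‖b‖ ^ m ≤ ‖bf m (fun i => σ (f i)) a b‖ := by
      by_cases hb : b = 0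
      · subst hb
        rw [norm_zero, zero_pow hm0, mul_zero]
        exact norm_nonneg _
      · have hb' : 0 < ‖b‖ := norm_pos_iff.2 hb
        rw [bf_right m _ _ _ hb, norm_mul, norm_pow, mul_comm]
        exact mul_le_mul_of_nonneg_left (hs1 _ (by
          rw [norm_div]; exact (div_le_one hb').2 hab)) (by positivity)
    refine ⟨le_trans ?_ key, key⟩
    exact mul_le_mul_of_nonneg_left (pow_le_pow_left₀ (norm_nonneg _) hab m) (by positivity)

/-- a form whose zeros over `L` are the common zeros of `z` and the `g ∈ l` -/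
theorem exists_G {K L : Type} [Field K] [NontriviallyNormedField L] (σ : K →+* L)
    {m : ℕ} {f : ℕ → K} {c₀ : ℝ} (hm : m ≠ 0) (hc₀ : 0 < c₀)
    (hb : ∀ a b : L, c₀ * ‖a‖ ^ m ≤ ‖bf m (fun i => σ (f i)) a b‖ ∧
      c₀ * ‖b‖ ^ m ≤ ‖bf m (fun i => σ (f i)) a b‖)
    {κ : Type} (z : κ) (e : ℕ) (he : e ≠ 0) (l : Finset (MvPolynomial κ K))
    (hl : ∀ g ∈ l, g.IsHomogeneous e) :
    ∃ (M : ℕ) (G : MvPolynomial κ K) (c : ℝ), M ≠ 0 ∧ G.IsHomogeneous (e * M) ∧ 0 < c ∧
      (∀ p : κ → L, c * ‖p z‖ ^ (e * M) ≤ ‖eval₂ σ p G‖) ∧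
      (∀ p : κ → L, eval₂ σ p G = 0 → ∀ g ∈ l, eval₂ σ p g = 0) ∧
      (∀ p : κ → L, p z = 0 → (∀ g ∈ l, eval₂ σ p g = 0) → eval₂ σ p G = 0) := by
  classical
  induction l using Finset.induction_on with
  | empty =>
    refine ⟨1, X z ^ e, 1, one_ne_zero, ?_, one_pos, ?_, ?_, ?_⟩
    · have := (isHomogeneous_X K z).pow e
      rwa [mul_comm] at this
    · intro p
      rw [eval₂_pow, eval₂_X, norm_pow, mul_one, one_mul]
    · intro p _ g hg
      exact absurd hg (Finset.notMem_empty g)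
    · intro p hp _
      rw [eval₂_pow, eval₂_X, hp, zero_pow he]
  | insert g l _ ih =>
    obtain ⟨M, G, c, hM, hG, hc, h1, h2, h3⟩ := ih fun g hg => hl g (Finset.mem_insert_of_mem hg)
    have hev : ∀ p : κ → L, eval₂ σ p (bf m (fun i => C (f i)) G (g ^ M)) =
        bf m (fun i => σ (f i)) (eval₂ σ p G) (eval₂ σ p g ^ M) := by
      intro p
      unfold bf
      rw [eval₂_sum]
      refine Finset.sum_congr rfl fun i _ => ?_
      rw [eval₂_mul, eval₂_mul, eval₂_pow, eval₂_pow, eval₂_pow, eval₂_C]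
    refine ⟨M * m, bf m (fun i => C (f i)) G (g ^ M), c₀ * c ^ m, mul_ne_zero hM hm, ?_,
      by positivity, ?_, ?_, ?_⟩
    · refine IsHomogeneous.sum _ _ _ fun i hi => ?_
      have h4 : i ≤ m := Nat.lt_succ_iff.1 (Finset.mem_range.1 hi)
      have h5 := ((isHomogeneous_C κ (f i)).mul (hG.pow i)).mul
        (((hl g (Finset.mem_insert_self _ _)).pow M).pow (m - i))
      have h6 : 0 + e * M * i + e * M * (m - i) = e * (M * m) := by
        rw [zero_add, ← Nat.mul_add, Nat.add_sub_cancel' h4, mul_assoc]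
      rwa [h6] at h5
    · intro p
      rw [hev]
      refine le_trans ?_ (hb (eval₂ σ p G) (eval₂ σ p g ^ M)).1
      have h4 : c₀ * c ^ m * ‖p z‖ ^ (e * (M * m)) = c₀ * (c * ‖p z‖ ^ (e * M)) ^ m := by
        rw [mul_pow, ← pow_mul, mul_assoc, mul_assoc]
      rw [h4]
      exact mul_le_mul_of_nonneg_left (pow_le_pow_left₀ (by positivity) (h1 p) m) hc₀.le
    · intro p hp
      rw [hev] at hp
      have h4 := hb (eval₂ σ p G) (eval₂ σ p g ^ M)
      rw [hp, norm_zero] at h4
      have h5 : eval₂ σ p G = 0 := by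
        by_contra hne
        have : 0 < c₀ * ‖eval₂ σ p G‖ ^ m := by
          have := norm_pos_iff.2 hne
          positivity
        linarith [h4.1]
      have h6 : eval₂ σ p g ^ M = 0 := by
        by_contra hne
        have : 0 < c₀ * ‖eval₂ σ p g ^ M‖ ^ m := by
          have := norm_pos_iff.2 hne
          positivity
        linarith [h4.2]
      intro g' hg'
      rcases Finset.mem_insert.1 hg' with rfl | hg'
      · exact pow_eq_zero_iff hM |>.1 h6
      · exact h2 p h5 g' hg'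
    · intro p hp hg
      rw [hev, h3 p hp fun g' hg' => hg g' (Finset.mem_insert_of_mem hg'),
        hg g (Finset.mem_insert_self _ _), zero_pow hM]
      unfold bf
      refine Finset.sum_eq_zero fun i _ => ?_
      by_cases hi0 : i = 0
      · subst hi0
        rw [Nat.sub_zero, zero_pow hm, mul_zero]
      · rw [zero_pow hi0, mul_zero, zero_mul]

end Pool.Agent.N763.MQ
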