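import Mathlib

/-!
# Transfer of the finiteness of local Zariski closures along maps of projective spaces (helper763)
-/

set_option autoImplicit false

namespace Pool.Agent.N763.MQ

open MvPolynomial Filter Topology

variable {K L : Type} [Field K] [NontriviallyNormedField L]

/-- a multiple of `y` is in `U` -/
def NR {ι : Type} (σ : K →+* L) (U : Set (ι → L)) (y : ι → K) : Prop :=
  ∃ c : L, c ≠ 0 ∧ (fun i => c * σ (y i)) ∈ U

/-- the ideal of the local Zariski closure of `V` at `x` -/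
def JV {ι : Type} (σ : K →+* L) (V : (ι → K) → Prop) (x : ι → L) : Set (MvPolynomial ι K) :=
  {f | ∃ U ∈ nhds x, ∀ y : ι → K, y ≠ 0 → V y → NR σ U y → ∀ t : K, eval (t • y) f = 0}

/-- finitely many local ideals -/
def FV {ι : Type} (σ : K →+* L) (V : (ι → K) → Prop) : Prop :=
  {J | ∃ x : ι → L, x ≠ 0 ∧ J = JV σ V x}.Finite

theorem transfer {ι κ : Type} (σ : K →+* L) {V : (ι → K) → Prop} {W : (κ → K) → Prop}
    (φ : (ι → K) → κ → K) (ψ : (ι → L) → κ → L) (e : ℕ) (hψc : Continuous ψ)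
    (hψσ : ∀ (c : L) (y : ι → K), ψ (fun i => c * σ (y i)) = fun j => c ^ e * σ (φ y j))
    (hψ0 : ∀ x, x ≠ 0 → ψ x ≠ 0)
    (h1 : ∀ y, y ≠ 0 → V y → W (φ y)) (h1' : ∀ y, y ≠ 0 → φ y ≠ 0)
    (h2 : ∀ w, w ≠ 0 → W w → ∃ (c : K) (y : ι → K), c ≠ 0 ∧ y ≠ 0 ∧ V y ∧ w = c • φ y)
    (h3 : ∀ x : ι → L, x ≠ 0 → ∀ U ∈ nhds x, ∃ U' ∈ nhds (ψ x), ∀ y, y ≠ 0 →
      NR σ U' (φ y) → NR σ U y)
    (h4 : ∀ f : MvPolynomial ι K, ∃ T : Finset (MvPolynomial κ K), ∀ y : ι → K,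
      (∀ t : K, eval (t • y) f = 0) ↔ ∀ h ∈ T, ∀ t : K, eval (t • φ y) h = 0)
    (hW : FV σ W) : FV σ V := by
  classical
  choose T hT using h4
  have key : ∀ x : ι → L, x ≠ 0 → JV σ V x = {f | ∀ h ∈ T f, h ∈ JV σ W (ψ x)} := by
    intro x hx
    ext f
    constructor
    · rintro ⟨U, hU, hf⟩ h hh
      obtain ⟨U', hU', hN⟩ := h3 x hx U hU
      refine ⟨U', hU', fun w hw hWw hNw t => ?_⟩
      obtain ⟨c, y, hc, hy, hVy, rfl⟩ := h2 w hw hWw
      have hNφ : NR σ U' (φ y) := by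
        obtain ⟨c', hc', hm⟩ := hNw
        refine ⟨c' * σ c, mul_ne_zero hc' ((map_ne_zero σ).2 hc), ?_⟩
        convert hm using 1
        funext i
        simp [mul_assoc]
      have h5 := (hT f y).1 (hf y hy hVy (hN y hy hNφ)) h hh (t * c)
      rw [smul_smul]
      exact h5
    · intro hf
      have hch : ∀ h : MvPolynomial κ K, ∃ U : Set (κ → L), U ∈ nhds (ψ x) ∧ (h ∈ T f →
          ∀ w : κ → K, w ≠ 0 → W w → NR σ U w → ∀ t : K, eval (t • w) h = 0) := by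
        intro h
        by_cases hh : h ∈ T f
        · obtain ⟨U, hU, hU'⟩ := hf h hh
          exact ⟨U, hU, fun _ => hU'⟩
        · exact ⟨Set.univ, Filter.univ_mem, fun h' => (hh h').elim⟩
      choose U hU hU' using hch
      have hI : (⋂ h ∈ T f, U h) ∈ nhds (ψ x) := by
        rw [Filter.biInter_finset_mem]
        exact fun h _ => hU h
      refine ⟨ψ ⁻¹' (⋂ h ∈ T f, U h), (hψc.tendsto x) hI, fun y hy hVy hN => ?_⟩
      obtain ⟨c, hc, hm⟩ := hN
      rw [hT f y]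
      intro h hh t
      refine hU' h hh (φ y) (h1' y hy) (h1 y hy hVy) ⟨c ^ e, pow_ne_zero _ hc, ?_⟩ t
      have hm' : ψ (fun i => c * σ (y i)) ∈ ⋂ h ∈ T f, U h := hm
      rw [hψσ] at hm'
      exact Set.mem_iInter₂.1 hm' h hh
  refine (hW.image fun J => {f | ∀ h ∈ T f, h ∈ J}).subset ?_
  rintro _ ⟨x, hx, rfl⟩
  exact ⟨JV σ W (ψ x), ⟨ψ x, hψ0 x hx, rfl⟩, (key x hx).symm⟩

theorem JV_union {ι : Type} (σ : K →+* L) (V W : (ι → K) → Prop) (x : ι → L) :
    JV σ (fun y => V y ∨ W y) x = JV σ V x ∩ JV σ W x := by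
  ext f
  constructor
  · rintro ⟨U, hU, h⟩
    exact ⟨⟨U, hU, fun y hy hV hN => h y hy (Or.inl hV) hN⟩,
      ⟨U, hU, fun y hy hV hN => h y hy (Or.inr hV) hN⟩⟩
  · rintro ⟨⟨U, hU, h⟩, ⟨U', hU', h'⟩⟩
    refine ⟨U ∩ U', Filter.inter_mem hU hU', fun y hy hV hN => ?_⟩
    obtain ⟨c, hc, hm⟩ := hN
    rcases hV with hV | hV
    · exact h y hy hV ⟨c, hc, hm.1⟩
    · exact h' y hy hV ⟨c, hc, hm.2⟩

theorem FV_union {ι : Type} (σ : K →+* L) {V W : (ι → K) → Prop} (hV : FV σ V) (hW : FV σ W) :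
    FV σ (fun y => V y ∨ W y) := by
  refine (Set.Finite.image2 (fun A B => A ∩ B) hV hW).subset ?_
  rintro _ ⟨x, hx, rfl⟩
  exact ⟨_, ⟨x, hx, rfl⟩, _, ⟨x, hx, rfl⟩, (JV_union σ V W x).symm⟩

theorem JV_congr {ι : Type} (σ : K →+* L) {V W : (ι → K) → Prop} (h : ∀ y, y ≠ 0 → (V y ↔ W y))
    (x : ι → L) : JV σ V x = JV σ W x := by
  ext f
  constructor
  · rintro ⟨U, hU, h'⟩
    exact ⟨U, hU, fun y hy hV hN => h' y hy ((h y hy).2 hV) hN⟩
  · rintro ⟨U, hU, h'⟩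
    exact ⟨U, hU, fun y hy hV hN => h' y hy ((h y hy).1 hV) hN⟩

theorem FV_congr {ι : Type} (σ : K →+* L) {V W : (ι → K) → Prop} (h : ∀ y, y ≠ 0 → (V y ↔ W y))
    (hV : FV σ V) : FV σ W := by
  refine hV.subset ?_
  rintro _ ⟨x, hx, rfl⟩
  exact ⟨x, hx, (JV_congr σ h x).symm⟩

theorem cont_eval₂ {ι : Type} (σ : K →+* L) (F : MvPolynomial ι K) :
    Continuous fun z : ι → L => eval₂ σ z F := by
  induction F using MvPolynomial.induction_on with
  | C a => simpa using continuous_const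
  | add p q hp hq =>
    simp only [eval₂_add]
    exact hp.add hq
  | mul_X p i hp =>
    simp only [eval₂_mul, eval₂_X]
    exact hp.mul (continuous_apply i)

theorem eval₂_co {ι : Type} (σ : K →+* L) (f : MvPolynomial ι K) (y : ι → K) :
    eval₂ σ (fun i => σ (y i)) f = σ (eval y f) := by
  have := eval₂_comp_left σ (RingHom.id K) y f
  rw [RingHom.comp_id] at this
  exact this.symm

theorem eval₂_scale {ι : Type} {R S : Type} [CommSemiring R] [CommSemiring S] (σ : R →+* S)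
    {F : MvPolynomial ι R} {d : ℕ} (hF : F.IsHomogeneous d) (c : S) (x : ι → S) :
    eval₂ σ (fun i => c * x i) F = c ^ d * eval₂ σ x F := by
  rw [eval₂_eq, eval₂_eq, Finset.mul_sum]
  refine Finset.sum_congr rfl fun e he => ?_
  have h1 : ∏ i ∈ e.support, (c * x i) ^ e i = c ^ d * ∏ i ∈ e.support, x i ^ e i := by
    simp_rw [mul_pow]
    rw [Finset.prod_mul_distrib, Finset.prod_pow_eq_pow_sum,
      ← hF.degree_eq_sum_deg_support he]
  rw [h1]
  ring

theorem eval_scale {ι : Type} {R : Type} [CommSemiring R]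
    {F : MvPolynomial ι R} {d : ℕ} (hF : F.IsHomogeneous d) (c : R) (x : ι → R) :
    eval (c • x) F = c ^ d * eval x F :=
  eval₂_scale (RingHom.id R) hF c x

/-- only the zeros of `F` over `L` matter -/
theorem FV_of_zero {ι : Type} (σ : K →+* L) (F : MvPolynomial ι K) {d : ℕ}
    (hF : F.IsHomogeneous d)
    (h : {J | ∃ x : ι → L, x ≠ 0 ∧ eval₂ σ x F = 0 ∧ J = JV σ (fun y => eval y F = 0) x}.Finite) :
    FV σ (fun y => eval y F = 0) := by
  refine (h.union (Set.finite_singleton Set.univ)).subset ?_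
  rintro _ ⟨x, hx, rfl⟩
  by_cases h0 : eval₂ σ x F = 0
  · exact Or.inl ⟨x, hx, h0, rfl⟩
  · right
    rw [Set.mem_singleton_iff, Set.eq_univ_iff_forall]
    intro f
    refine ⟨{z | eval₂ σ z F ≠ 0}, (cont_eval₂ σ F).continuousAt.eventually_ne h0,
      fun y hy hV hN => ?_⟩
    obtain ⟨c, hc, hm⟩ := hN
    refine (hm ?_).elim
    rw [eval₂_scale σ hF, eval₂_co, show eval y F = 0 from hV, map_zero, mul_zero]

end Pool.Agent.N763.MQ
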