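import Pool.Agent.N763.MQ.Mono

/-!
# Reduction to hypersurfaces over every number field (helper763)
-/

set_option autoImplicit false

namespace Pool.Agent.N763.MQ

open MvPolynomial Filter Topology

theorem not_algClosed (K : Type) [Field K] [NumberField K] : ¬ IsAlgClosed K := by
  intro h
  obtain ⟨p, hp1, hp⟩ := Nat.exists_infinite_primes (Module.finrank ℚ K + 2)
  have : NeZero (p : K) := ⟨Nat.cast_ne_zero.2 hp.ne_zero⟩
  have hdeg : (Polynomial.cyclotomic p K).degree ≠ 0 := by
    rw [Polynomial.degree_cyclotomic, Nat.totient_prime hp]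
    have := hp.two_le
    exact_mod_cast (by omega : p - 1 ≠ 0)
  obtain ⟨ζ, hζ⟩ := IsAlgClosed.exists_root (Polynomial.cyclotomic p K) hdeg
  rw [Polynomial.isRoot_cyclotomic_iff] at hζ
  have h1 := hζ.totient_le_degree_minpoly
  have hint : IsIntegral ℤ ζ := hζ.isIntegral hp.pos
  have h2 : (minpoly ℤ ζ).natDegree = (minpoly ℚ ζ).natDegree := by
    rw [minpoly.isIntegrallyClosed_eq_field_fractions' ℚ hint]
    exact ((minpoly.monic hint).natDegree_map _).symm
  have h3 : (minpoly ℚ ζ).natDegree ≤ Module.finrank ℚ K := minpoly.natDegree_le ζ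
  rw [Nat.totient_prime hp] at h1
  omega

/-- an anisotropic binary form over a number field -/
theorem anisK (K : Type) [Field K] [NumberField K] :
    ∃ (m : ℕ) (f : ℕ → K), m ≠ 0 ∧ ∀ a b : K, bf m f a b = 0 → a = 0 ∧ b = 0 := by
  have h1 : ∃ p : Polynomial K, p.Monic ∧ Irreducible p ∧ ∀ x, p.eval x ≠ 0 := by
    by_contra hcon
    push Not at hcon
    exact not_algClosed K (IsAlgClosed.of_exists_root K fun p hp hi => hcon p hp hi)
  obtain ⟨p, hp, hi, hr⟩ := h1
  set m := p.natDegree with hm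
  have hm0 : m ≠ 0 := hi.natDegree_pos.ne'
  have e1 : ∀ a : K, bf m p.coeff a 1 = p.eval a := by
    intro a
    unfold bf
    rw [Polynomial.eval_eq_sum_range]
    exact Finset.sum_congr rfl fun i _ => by rw [one_pow, mul_one]
  refine ⟨m, p.coeff, hm0, fun a b hab => ?_⟩
  have hb : b = 0 := by
    by_contra hb
    rw [bf_right m _ _ _ hb, e1] at hab
    rcases mul_eq_zero.1 hab with h | h
    · exact (pow_ne_zero _ hb) h
    · exact hr _ h
  subst hb
  refine ⟨?_, rfl⟩
  unfold bf at hab
  rw [Finset.sum_eq_single_of_mem m (Finset.self_mem_range_succ m)] at hab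
  · rw [Nat.sub_self, pow_zero, mul_one, hm, Polynomial.coeff_natDegree, hp.leadingCoeff,
      one_mul] at hab
    exact pow_eq_zero_iff hm0 |>.1 hab
  · intro i hi hne
    have : m - i ≠ 0 := by
      have := Finset.mem_range.1 hi
      omega
    rw [zero_pow this, mul_zero]

theorem exists_GK {K : Type} [Field K] {m : ℕ} {f : ℕ → K} (hm : m ≠ 0)
    (hb : ∀ a b : K, bf m f a b = 0 → a = 0 ∧ b = 0) {κ : Type} (e : ℕ)
    (l : Finset (MvPolynomial κ K)) (hl : ∀ g ∈ l, g.IsHomogeneous e) :
    ∃ (M : ℕ) (G : MvPolynomial κ K), M ≠ 0 ∧ G.IsHomogeneous (e * M) ∧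
      ∀ y : κ → K, eval y G = 0 ↔ ∀ g ∈ l, eval y g = 0 := by
  classical
  induction l using Finset.induction_on with
  | empty =>
    exact ⟨1, 0, one_ne_zero, isHomogeneous_zero _ _ _, fun y => by simp⟩
  | insert g l _ ih =>
    obtain ⟨M, G, hM, hG, h1⟩ := ih fun g hg => hl g (Finset.mem_insert_of_mem hg)
    have hev : ∀ y : κ → K, eval y (bf m (fun i => C (f i)) G (g ^ M)) =
        bf m f (eval y G) (eval y g ^ M) := by
      intro y
      unfold bf
      rw [map_sum]
      refine Finset.sum_congr rfl fun i _ => ?_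
      rw [map_mul, map_mul, map_pow, map_pow, map_pow, eval_C]
    have hz : bf m f (0 : K) 0 = 0 := by
      unfold bf
      refine Finset.sum_eq_zero fun i _ => ?_
      by_cases hi0 : i = 0
      · subst hi0
        rw [Nat.sub_zero, zero_pow hm, mul_zero]
      · rw [zero_pow hi0, mul_zero, zero_mul]
    refine ⟨M * m, bf m (fun i => C (f i)) G (g ^ M), mul_ne_zero hM hm, ?_, fun y => ?_⟩
    · refine IsHomogeneous.sum _ _ _ fun i hi => ?_
      have h4 : i ≤ m := Nat.lt_succ_iff.1 (Finset.mem_range.1 hi)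
      have h5 := ((isHomogeneous_C κ (f i)).mul (hG.pow i)).mul
        (((hl g (Finset.mem_insert_self _ _)).pow M).pow (m - i))
      have h6 : 0 + e * M * i + e * M * (m - i) = e * (M * m) := by
        rw [zero_add, ← Nat.mul_add, Nat.add_sub_cancel' h4, mul_assoc]
      rwa [h6] at h5
    · rw [hev]
      constructor
      · intro h
        obtain ⟨h2, h3⟩ := hb _ _ h
        intro g' hg'
        rcases Finset.mem_insert.1 hg' with rfl | hg'
        · exact pow_eq_zero_iff hM |>.1 h3
        · exact (h1 y).1 h2 g' hg'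
      · intro h
        rw [(h1 y).2 fun g' hg' => h g' (Finset.mem_insert_of_mem hg'),
          h g (Finset.mem_insert_self _ _), zero_pow hM, hz]

section

variable {K : Type} [Field K] {L : Type} [NontriviallyNormedField L] [CompleteSpace L]
  [CharZero L] [ProperSpace L]

/-- all forms from the irreducible ones -/
theorem FV_factor (σ : K →+* L) (hσ : DenseRange σ) {n : ℕ}
    (hyp : ∀ (d : ℕ) (F : MvPolynomial (Fin (n + 1)) K), F.IsHomogeneous d → Irreducible F →
      FV σ fun y => eval y F = 0) :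
    ∀ (d : ℕ) (F : MvPolynomial (Fin (n + 1)) K), F.IsHomogeneous d → FV σ fun y => eval y F = 0 := by
  intro d
  induction d using Nat.strong_induction_on with
  | _ d ih =>
  intro F hF
  by_cases h0 : F = 0
  · subst h0
    exact FV_low σ hσ (isHomogeneous_zero _ _ 0) (by omega)
  by_cases hd : d ≤ 3
  · exact FV_low σ hσ hF hd
  by_cases hi : Irreducible F
  · exact hyp d F hF hi
  have hu : ¬ IsUnit F := by
    intro hu
    obtain ⟨G, hG⟩ := hu.exists_right_inv
    have h1 : (F * G).IsHomogeneous 0 := by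
      rw [hG]; exact isHomogeneous_one _ _
    obtain ⟨a, b, ha, hb, hab⟩ := Pool.Agent.Helper413.Quad.isHomogeneous_of_mul
      (by rw [hG]; exact one_ne_zero) h1
    have := ha.inj_right hF h0
    omega
  rw [irreducible_iff] at hi
  push Not at hi
  obtain ⟨G, H, hGH, hG, hH⟩ := hi hu
  have hne : G * H ≠ 0 := by rw [← hGH]; exact h0
  obtain ⟨a, b, ha, hb, hab⟩ := Pool.Agent.Helper413.Quad.isHomogeneous_of_mul hne
    (by rw [← hGH]; exact hF)
  have ha0 : a ≠ 0 := by
    rintro rfl
    exact hG (unit_of_zero (left_ne_zero_of_mul hne) ha)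
  have hb0 : b ≠ 0 := by
    rintro rfl
    exact hH (unit_of_zero (right_ne_zero_of_mul hne) hb)
  refine FV_congr σ (fun y _ => ?_) (FV_union σ (ih a (by omega) G ha) (ih b (by omega) H hb))
  rw [hGH, map_mul, mul_eq_zero]

end

/-- hypersurfaces suffice -/
theorem main_hyper {K : Type} [Field K] [NumberField K] {L : Type} [NontriviallyNormedField L]
    [CompleteSpace L] [CharZero L] [ProperSpace L] (σ : K →+* L) (hσ : DenseRange σ)
    (hyp : ∀ (n d : ℕ) (F : MvPolynomial (Fin (n + 1)) K), F.IsHomogeneous d → Irreducible F →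
      FV σ fun y => eval y F = 0)
    {n : ℕ} (S : Set (MvPolynomial (Fin (n + 1)) K)) (hS : ∀ f ∈ S, ∃ d : ℕ, f.IsHomogeneous d) :
    FV σ fun y => ∀ g ∈ S, eval y g = 0 := by
  classical
  obtain ⟨T, hTS, hT⟩ := fin_eqs S
  refine FV_congr σ (fun y _ => hT y) ?_
  obtain ⟨m, f, hm, hb⟩ := anisK K
  set e := T.sup totalDegree + 1 with he
  have hle : ∀ g ∈ T, g.totalDegree ≤ e := fun g hg => (Finset.le_sup (f := totalDegree) hg).trans
    (Nat.le_succ _)
  let q : T × Fin (n + 1) → MvPolynomial (Fin (n + 1)) K := fun p =>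
    p.1.1 * X p.2 ^ (e - p.1.1.totalDegree)
  have hq : ∀ p, (q p).IsHomogeneous e := by
    intro p
    have h2 := (hom_totalDegree (hS p.1.1 (hTS p.1.2))).mul
      ((isHomogeneous_X K p.2).pow (e - p.1.1.totalDegree))
    have h3 : p.1.1.totalDegree + 1 * (e - p.1.1.totalDegree) = e := by
      have := hle p.1.1 p.1.2
      omega
    rw [h3] at h2
    exact h2
  obtain ⟨M, G, -, hG, hz⟩ := exists_GK hm hb e (Finset.univ.image q) (by
      intro g hg
      obtain ⟨p, -, rfl⟩ := Finset.mem_image.1 hg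
      exact hq p)
  refine FV_congr σ (fun y hy => ?_) (FV_factor σ hσ (hyp n) (e * M) G hG)
  rw [hz]
  constructor
  · intro h g hg
    obtain ⟨j, hj⟩ := Function.ne_iff.1 hy
    have h5 := h (q (⟨g, hg⟩, j)) (Finset.mem_image_of_mem q (Finset.mem_univ _))
    change eval y (g * X j ^ (e - g.totalDegree)) = 0 at h5
    rw [map_mul, map_pow, eval_X] at h5
    rcases mul_eq_zero.1 h5 with h6 | h6
    · exact h6
    · exact ((pow_ne_zero _ hj) h6).elim
  · intro h g hg
    obtain ⟨p, -, rfl⟩ := Finset.mem_image.1 hg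
    change eval y (p.1.1 * X p.2 ^ (e - p.1.1.totalDegree)) = 0
    rw [map_mul, h p.1.1 p.1.2, zero_mul]

end Pool.Agent.N763.MQ
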