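import Pool.Agent.N763.MQ.Quart

/-!
# Reduction to quartic hypersurfaces (helper763)
-/

set_option autoImplicit false

namespace Pool.Agent.N763.MQ

open MvPolynomial Filter Topology

/-- finitely many equations suffice -/
theorem fin_eqs {K : Type} [Field K] {ι : Type} [Finite ι] (S : Set (MvPolynomial ι K)) :
    ∃ T : Finset (MvPolynomial ι K), (↑T ⊆ S) ∧
      ∀ y : ι → K, (∀ g ∈ T, eval y g = 0) ↔ ∀ g ∈ S, eval y g = 0 := by
  have h1 : (Ideal.span S).FG := IsNoetherian.noetherian _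
  obtain ⟨T, hT, hTS⟩ := (Submodule.fg_span_iff_fg_span_finset_subset S).1 h1
  refine ⟨T, hT, fun y => ⟨fun h g hg => ?_, fun h g hg => h g (hT hg)⟩⟩
  have h2 : g ∈ Submodule.span (MvPolynomial ι K) (T : Set (MvPolynomial ι K)) := by
    rw [← hTS]
    exact Submodule.subset_span hg
  refine Submodule.span_induction (p := fun f _ => eval y f = 0)
    (fun g hg => h g hg) (map_zero _) ?_ ?_ h2
  · intro f g _ _ h1 h2
    rw [map_add, h1, h2, add_zero]
  · intro c f _ h1
    rw [smul_eq_mul, map_mul, h1, mul_zero]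

theorem main_quartic {K : Type} [Field K] (τ : K →+* ℝ) {L : Type} [NontriviallyNormedField L]
    [CompleteSpace L] [CharZero L] [ProperSpace L] (σ : K →+* L) (hσ : DenseRange σ)
    (hyp : ∀ (n : ℕ) (F : MvPolynomial (Fin (n + 1)) K), F.IsHomogeneous 4 → Irreducible F →
      (∃ (m : ℕ) (q : Fin m → MvPolynomial (Fin (n + 1)) K), (∀ i, (q i).IsHomogeneous 2) ∧
        F = ∑ i, q i ^ 2) → FV σ fun y => eval y F = 0)
    {n : ℕ} (S : Set (MvPolynomial (Fin (n + 1)) K)) (hS : ∀ f ∈ S, ∃ d : ℕ, f.IsHomogeneous d) :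
    FV σ fun y => ∀ g ∈ S, eval y g = 0 := by
  classical
  have : CharZero K := σ.charZero
  obtain ⟨T, hTS, hT⟩ := fin_eqs S
  refine FV_congr σ (fun y _ => hT y) ?_
  obtain ⟨D, m, q, hD, hq, h1, h2⟩ := exists_quartic τ T fun g hg => hS g (hTS hg)
  refine ver_FV σ hD (W := fun w => eval w (∑ i, q i ^ 2) = 0) (fun y _ hy => h1 y hy) h2 ?_
  -- renaming
  have hcard : Fintype.card (Fin D → Fin (n + 1)) ≠ 0 := Fintype.card_ne_zero
  obtain ⟨N, hN⟩ := Nat.exists_eq_succ_of_ne_zero hcard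
  let e : (Fin D → Fin (n + 1)) ≃ Fin (N + 1) := Fintype.equivFinOfCardEq hN
  refine FV_rename σ e _ ?_
  have h3 : rename e (∑ i, q i ^ 2) = ∑ i, (rename e (q i)) ^ 2 := by
    rw [map_sum]
    exact Finset.sum_congr rfl fun i _ => map_pow _ _ _
  have h4 : (rename e (∑ i, q i ^ 2)).IsHomogeneous 4 := by
    rw [h3]
    exact IsHomogeneous.sum _ _ _ fun i _ => ((hq i).rename_isHomogeneous (f := e)).pow 2
  exact FV_quartic σ hσ h4 fun hi => hyp N _ h4 hi
    ⟨m, fun i => rename e (q i), fun i => (hq i).rename_isHomogeneous, h3⟩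

end Pool.Agent.N763.MQ
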