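import Pool.Agent.N763.MQ.Mono

/-!
# Reduction to rational hypersurfaces (helper763)
-/

set_option autoImplicit false

namespace Pool.Agent.N763.MQ

open MvPolynomial Filter Topology

theorem eval₂_cons_zero {K L : Type} [Field K] [Field L] (σ : K →+* L) {n : ℕ}
    (y : Fin (n + 1) → K) (g : MvPolynomial (Fin (n + 2)) K) :
    eval₂ σ (fun i => σ ((Fin.cons 0 y : Fin (n + 2) → K) i)) g =
      σ (eval (Fin.cons 0 y : Fin (n + 2) → K) g) := by
  have := eval₂_comp_left σ (RingHom.id K) (Fin.cons 0 y : Fin (n + 2) → K) g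
  rw [RingHom.comp_id] at this
  exact this.symm

/-- at the real places rational quintic hypersurfaces suffice -/
theorem main_quintic {K : Type} [Field K] (σ : K →+* ℝ) (hσ : DenseRange σ)
    (hyp : ∀ (n : ℕ) (A B : MvPolynomial (Fin (n + 1)) K), A ≠ 0 → A.IsHomogeneous 4 →
      B.IsHomogeneous 5 → Irreducible (Mon A B) → FV σ fun y => eval y (Mon A B) = 0)
    {n : ℕ} (S : Set (MvPolynomial (Fin (n + 1)) K)) (hS : ∀ f ∈ S, ∃ d : ℕ, f.IsHomogeneous d) :
    FV σ fun y => ∀ g ∈ S, eval y g = 0 := by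
  classical
  have : CharZero K := σ.charZero
  obtain ⟨T, hTS, hT⟩ := fin_eqs S
  refine FV_congr σ (fun y _ => hT y) ?_
  obtain ⟨D, m, q, hD, hq, h1, h2⟩ := exists_quartic σ T fun g hg => hS g (hTS hg)
  refine ver_FV σ hD (W := fun w => eval w (∑ i, q i ^ 2) = 0) (fun y _ hy => h1 y hy) h2 ?_
  -- renaming
  have hcard : Fintype.card (Fin D → Fin (n + 1)) ≠ 0 := Fintype.card_ne_zero
  obtain ⟨N, hN⟩ := Nat.exists_eq_succ_of_ne_zero hcard
  let e : (Fin D → Fin (n + 1)) ≃ Fin (N + 1) := Fintype.equivFinOfCardEq hN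
  refine FV_rename σ e _ ?_
  have h3 : rename e (∑ i, q i ^ 2) = ∑ i, (rename e (q i)) ^ 2 := by
    rw [map_sum]
    exact Finset.sum_congr rfl fun i _ => map_pow _ _ _
  have h4 : (rename e (∑ i, q i ^ 2)).IsHomogeneous 4 := by
    rw [h3]
    exact IsHomogeneous.sum _ _ _ fun i _ => ((hq i).rename_isHomogeneous (f := e)).pow 2
  set Q := rename e (∑ i, q i ^ 2) with hQ
  by_cases hV : ∀ y : Fin (N + 1) → K, y ≠ 0 → eval y Q = 0
  · refine FV_congr σ (fun y hy => ?_) (FV_low σ hσ (isHomogeneous_zero (Fin (N + 1)) K 0)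
      (by omega))
    simp only [map_zero, true_iff]
    exact hV y hy
  push Not at hV
  obtain ⟨y₀, -, hy₀⟩ := hV
  set G : MvPolynomial (Fin (N + 2)) K := X 0 ^ 4 + rename Fin.succ Q with hG
  have hGh : G.IsHomogeneous 4 := by
    have := (isHomogeneous_X K (0 : Fin (N + 2))).pow 4
    rw [one_mul] at this
    exact this.add h4.rename_isHomogeneous
  have hGe : ∀ y : Fin (N + 1) → K, eval (Fin.cons 0 y : Fin (N + 2) → K) G = eval y Q := by
    intro y
    rw [hG, map_add, map_pow, eval_X, Fin.cons_zero, eval_rename, zero_pow (by norm_num), zero_add]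
    congr 1
  refine of_G σ hσ (G := G) hGh one_pos ?_ (fun y _ => by rw [hGe]) ?_
  · intro p
    have h5 : eval₂ σ p G = p 0 ^ 4 + ∑ i, (eval₂ σ (fun i => p (Fin.succ i))
        (rename e (q i))) ^ 2 := by
      rw [hG, eval₂_add, eval₂_pow, eval₂_X, eval₂_rename, h3, eval₂_sum]
      congr 1
      exact Finset.sum_congr rfl fun i _ => by rw [eval₂_pow]; rfl
    rw [h5, one_mul, Real.norm_eq_abs, Real.norm_eq_abs]
    have h6 : 0 ≤ ∑ i, (eval₂ σ (fun i => p (Fin.succ i)) (rename e (q i))) ^ 2 :=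
      Finset.sum_nonneg fun i _ => sq_nonneg _
    have h7 : |p 0| ^ 4 = p 0 ^ 4 := by
      rw [show (4 : ℕ) = 2 * 2 from rfl, pow_mul, pow_mul, sq_abs]
    rw [h7]
    exact (le_add_of_nonneg_right h6).trans (le_abs_self _)
  · refine hyp (N + 1) G (-(X 0) ^ (4 + 1)) ?_ hGh ?_ ?_
    · intro h
      apply hy₀
      rw [← hGe, h, map_zero]
    · have := (isHomogeneous_X K (0 : Fin (N + 2))).pow 5
      rw [one_mul] at this
      exact this.neg
    · exact mon_irr (y := y₀) (by rw [hGe]; exact hy₀)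

/-- at the places which are not complex rational hypersurfaces suffice -/
theorem main_rational {K : Type} [Field K] {L : Type} [NontriviallyNormedField L]
    [CompleteSpace L] [CharZero L] [ProperSpace L] (σ : K →+* L) (hσ : DenseRange σ)
    (hL : ¬ IsAlgClosed L)
    (hyp : ∀ (n d : ℕ) (A B : MvPolynomial (Fin (n + 1)) K), A ≠ 0 → A.IsHomogeneous d →
      B.IsHomogeneous (d + 1) → Irreducible (Mon A B) → FV σ fun y => eval y (Mon A B) = 0)
    {n : ℕ} (S : Set (MvPolynomial (Fin (n + 1)) K)) (hS : ∀ f ∈ S, ∃ d : ℕ, f.IsHomogeneous d) :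
    FV σ fun y => ∀ g ∈ S, eval y g = 0 := by
  classical
  obtain ⟨T, hTS, hT⟩ := fin_eqs S
  refine FV_congr σ (fun y _ => hT y) ?_
  by_cases hV : ∀ y : Fin (n + 1) → K, y ≠ 0 → ∀ g ∈ T, eval y g = 0
  · refine FV_congr σ (fun y hy => ?_) (FV_low σ hσ (isHomogeneous_zero (Fin (n + 1)) K 0)
      (by omega))
    simp only [map_zero, true_iff]
    exact hV y hy
  push Not at hV
  obtain ⟨y₀, hy₀, g₀, hg₀, hgy₀⟩ := hV
  obtain ⟨m, f, c₀, hm, hc₀, hb⟩ := anis σ hσ hL
  set e := T.sup totalDegree + 1 with he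
  have hle : ∀ g ∈ T, g.totalDegree ≤ e := fun g hg => (Finset.le_sup (f := totalDegree) hg).trans
    (Nat.le_succ _)
  -- the equations of equal degrees
  let q : T × Fin (n + 1) → MvPolynomial (Fin (n + 2)) K := fun p =>
    rename Fin.succ (p.1.1 * X p.2 ^ (e - p.1.1.totalDegree))
  have hq : ∀ p, (q p).IsHomogeneous e := by
    intro p
    have h2 := (hom_totalDegree (hS p.1.1 (hTS p.1.2))).mul
      ((isHomogeneous_X K p.2).pow (e - p.1.1.totalDegree))
    have h3 : p.1.1.totalDegree + 1 * (e - p.1.1.totalDegree) = e := by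
      have := hle p.1.1 p.1.2
      omega
    rw [h3] at h2
    exact h2.rename_isHomogeneous
  have hqe : ∀ (y : Fin (n + 1) → K) (p : T × Fin (n + 1)),
      eval (Fin.cons 0 y : Fin (n + 2) → K) (q p) =
        eval y p.1.1 * y p.2 ^ (e - p.1.1.totalDegree) := by
    intro y p
    change eval (Fin.cons 0 y : Fin (n + 2) → K)
      (rename Fin.succ (p.1.1 * X p.2 ^ (e - p.1.1.totalDegree))) = _
    rw [eval_rename]
    have : (Fin.cons 0 y : Fin (n + 2) → K) ∘ Fin.succ = y := by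
      funext i
      simp
    rw [this, map_mul, map_pow, eval_X]
  have hqV : ∀ y : Fin (n + 1) → K, y ≠ 0 →
      ((∀ p, eval (Fin.cons 0 y : Fin (n + 2) → K) (q p) = 0) ↔ ∀ g ∈ T, eval y g = 0) := by
    intro y hy
    constructor
    · intro h g hg
      obtain ⟨j, hj⟩ := Function.ne_iff.1 hy
      have h5 := h (⟨g, hg⟩, j)
      rw [hqe] at h5
      rcases mul_eq_zero.1 h5 with h6 | h6
      · exact h6
      · exact ((pow_ne_zero _ hj) h6).elim
    · intro h p
      rw [hqe, h p.1.1 p.1.2, zero_mul]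
  obtain ⟨M, G, c, hM, hG, hc, g1, g2, g3⟩ := exists_G σ hm hc₀ hb (0 : Fin (n + 2)) e
    (Nat.succ_ne_zero _) (Finset.univ.image q) (by
      intro g hg
      obtain ⟨p, -, rfl⟩ := Finset.mem_image.1 hg
      exact hq p)
  have hGV : ∀ y : Fin (n + 1) → K, y ≠ 0 →
      (eval (Fin.cons 0 y : Fin (n + 2) → K) G = 0 ↔ ∀ g ∈ T, eval y g = 0) := by
    intro y hy
    rw [← hqV y hy]
    constructor
    · intro h p
      have h5 := g2 (fun i => σ ((Fin.cons 0 y : Fin (n + 2) → K) i))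
        (by rw [eval₂_cons_zero, h, map_zero]) (q p) (Finset.mem_image_of_mem q (Finset.mem_univ p))
      rw [eval₂_cons_zero] at h5
      exact (map_eq_zero σ).1 h5
    · intro h
      have h5 := g3 (fun i => σ ((Fin.cons 0 y : Fin (n + 2) → K) i))
        (by simp) (by
          intro g hg
          obtain ⟨p, -, rfl⟩ := Finset.mem_image.1 hg
          rw [eval₂_cons_zero, h p, map_zero])
      rw [eval₂_cons_zero] at h5
      exact (map_eq_zero σ).1 h5
  have hne : eval (Fin.cons 0 y₀ : Fin (n + 2) → K) G ≠ 0 := by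
    intro h
    exact hgy₀ ((hGV y₀ hy₀).1 h g₀ hg₀)
  refine of_G σ hσ (G := G) hG hc g1 hGV ?_
  refine hyp (n + 1) (e * M) G (-(X 0) ^ (e * M + 1)) ?_ hG ?_ (mon_irr hne)
  · intro h
    apply hne
    rw [h, map_zero]
  · have := (isHomogeneous_X K (0 : Fin (n + 2))).pow (e * M + 1)
    rw [one_mul] at this
    exact this.neg

end Pool.Agent.N763.MQ
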