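import Pool.Agent.N763.MQ.Anis
import Pool.Agent.N763.MQ.MainQ

/-!
# Rational hypersurfaces (helper763)
-/

set_option autoImplicit false

namespace Pool.Agent.N763.MQ

open MvPolynomial Filter Topology

/-- the form `A x₀ + B` -/
noncomputable def Mon {K : Type} [Field K] {n : ℕ} (A B : MvPolynomial (Fin (n + 1)) K) :
    MvPolynomial (Fin (n + 2)) K :=
  rename Fin.succ A * X 0 + rename Fin.succ B

theorem mon_hom {K : Type} [Field K] {n d : ℕ} {A B : MvPolynomial (Fin (n + 1)) K}
    (hA : A.IsHomogeneous d) (hB : B.IsHomogeneous (d + 1)) : (Mon A B).IsHomogeneous (d + 1) :=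
  (hA.rename_isHomogeneous.mul (isHomogeneous_X K 0)).add hB.rename_isHomogeneous

theorem mon_eval₂ {K S : Type} [Field K] [CommSemiring S] (σ : K →+* S) {n : ℕ}
    (A B : MvPolynomial (Fin (n + 1)) K) (p : Fin (n + 2) → S) :
    eval₂ σ p (Mon A B) = eval₂ σ (fun i => p (Fin.succ i)) A * p 0 +
      eval₂ σ (fun i => p (Fin.succ i)) B := by
  unfold Mon
  rw [eval₂_add, eval₂_mul, eval₂_rename, eval₂_rename, eval₂_X]
  rfl

theorem mon_eval {K : Type} [Field K] {n : ℕ}
    (A B : MvPolynomial (Fin (n + 1)) K) (p : Fin (n + 2) → K) :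
    eval p (Mon A B) = eval (fun i => p (Fin.succ i)) A * p 0 +
      eval (fun i => p (Fin.succ i)) B :=
  mon_eval₂ (RingHom.id K) A B p

theorem mon_irr {K : Type} [Field K] {n d : ℕ} {G : MvPolynomial (Fin (n + 2)) K}
    {y : Fin (n + 1) → K} (hy : eval (Fin.cons 0 y : Fin (n + 2) → K) G ≠ 0) :
    Irreducible (Mon G (-(X 0) ^ (d + 1))) := by
  classical
  unfold Mon
  have hv : ∀ H : MvPolynomial (Fin (n + 2)) K, (0 : Fin (n + 3)) ∉ (rename Fin.succ H).vars := by
    intro H h
    have := vars_rename Fin.succ H h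
    obtain ⟨i, -, hi⟩ := Finset.mem_image.1 this
    exact Fin.succ_ne_zero i hi
  refine irreducible_mul_X_add _ _ 0 ?_ (hv _) (hv _) ?_
  · intro h
    apply hy
    have : G = 0 := rename_injective _ (Fin.succ_injective _) (by rw [h, map_zero])
    rw [this, map_zero]
  · have h1 : IsRelPrime (X 1 : MvPolynomial (Fin (n + 3)) K) (rename Fin.succ G) := by
      rw [(X_prime (R := K) (i := (1 : Fin (n + 3)))).irreducible.isRelPrime_iff_not_dvd]
      rintro ⟨H, hH⟩
      have h2 := congrArg (eval (Fin.cons 0 (Fin.cons 0 y) : Fin (n + 3) → K)) hH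
      rw [eval_rename, map_mul, eval_X] at h2
      apply hy
      have h3 : (Fin.cons 0 (Fin.cons 0 y) : Fin (n + 3) → K) ∘ Fin.succ =
          (Fin.cons 0 y : Fin (n + 2) → K) := by
        funext i
        simp
      rw [h3] at h2
      rw [h2]
      have h4 : (Fin.cons 0 (Fin.cons 0 y) : Fin (n + 3) → K) 1 = 0 := by
        rw [show (1 : Fin (n + 3)) = Fin.succ 0 from rfl, Fin.cons_succ, Fin.cons_zero]
      rw [h4, zero_mul]
    have h5 : rename Fin.succ (-(X 0 : MvPolynomial (Fin (n + 2)) K) ^ (d + 1)) =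
        -(X 1 : MvPolynomial (Fin (n + 3)) K) ^ (d + 1) := by
      rw [map_neg, map_pow, rename_X]
      rfl
    rw [h5]
    intro u hu1 hu2
    exact (h1.pow_left (m := d + 1)) ((dvd_neg).1 hu2) hu1

theorem of_G {K L : Type} [Field K] [NontriviallyNormedField L] (σ : K →+* L)
    (hσ : DenseRange σ) {n d : ℕ} {V : (Fin (n + 1) → K) → Prop} {G : MvPolynomial (Fin (n + 2)) K}
    (hG : G.IsHomogeneous d) {c : ℝ} (hc : 0 < c)
    (ha : ∀ p : Fin (n + 2) → L, c * ‖p 0‖ ^ d ≤ ‖eval₂ σ p G‖)
    (hb : ∀ y : Fin (n + 1) → K, y ≠ 0 → (eval (Fin.cons 0 y : Fin (n + 2) → K) G = 0 ↔ V y))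
    (hF : FV σ fun y => eval y (Mon G (-(X 0) ^ (d + 1))) = 0) : FV σ V := by
  -- the key identity
  have key : ∀ x : Fin (n + 1) → L, x ≠ 0 → JV σ V x =
      {f | rename (fun i => Fin.succ (Fin.succ i)) f ∈
        JV σ (fun y => eval y (Mon G (-(X 0) ^ (d + 1))) = 0)
          (Fin.cons 1 (Fin.cons 0 x) : Fin (n + 3) → L)} := by
    intro x hx
    ext f
    have hren : ∀ (t : K) (w : Fin (n + 3) → K),
        eval (t • w) (rename (fun i => Fin.succ (Fin.succ i)) f) =
          eval (t • fun i : Fin (n + 1) => w (Fin.succ (Fin.succ i))) f := by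
      intro t w
      rw [eval_rename]
      rfl
    constructor
    · rintro ⟨U, hU, hf⟩
      have c0 : Continuous fun p : Fin (n + 3) → L => ‖p 0‖ := (continuous_apply _).norm
      have c1 : Continuous fun p : Fin (n + 3) → L => ‖p 1‖ := (continuous_apply _).norm
      have c2 : Continuous fun p : Fin (n + 3) → L =>
          (fun i : Fin (n + 1) => p (Fin.succ (Fin.succ i))) :=
        continuous_pi fun i => continuous_apply _
      have v1 : (Fin.cons 1 (Fin.cons 0 x) : Fin (n + 3) → L) 1 = 0 := by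
        rw [show (1 : Fin (n + 3)) = Fin.succ 0 from rfl, Fin.cons_succ, Fin.cons_zero]
      have v2 : (fun i : Fin (n + 1) => (Fin.cons 1 (Fin.cons 0 x) : Fin (n + 3) → L)
          (Fin.succ (Fin.succ i))) = x := by
        funext i
        simp
      have e0 : ∀ᶠ p in 𝓝 (Fin.cons 1 (Fin.cons 0 x) : Fin (n + 3) → L), 1 / 2 < ‖p 0‖ := by
        refine c0.continuousAt.eventually_const_lt ?_
        change 1 / 2 < ‖(Fin.cons 1 (Fin.cons 0 x) : Fin (n + 3) → L) 0‖
        rw [Fin.cons_zero, norm_one]
        norm_num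
      have e1 : ∀ᶠ p in 𝓝 (Fin.cons 1 (Fin.cons 0 x) : Fin (n + 3) → L), ‖p 1‖ < c / 2 := by
        refine c1.continuousAt.eventually_lt_const ?_
        change ‖(Fin.cons 1 (Fin.cons 0 x) : Fin (n + 3) → L) 1‖ < c / 2
        rw [v1, norm_zero]
        positivity
      have e2 : ∀ᶠ p in 𝓝 (Fin.cons 1 (Fin.cons 0 x) : Fin (n + 3) → L),
          (fun i : Fin (n + 1) => p (Fin.succ (Fin.succ i))) ∈ U := by
        refine c2.continuousAt ?_
        change U ∈ 𝓝 (fun i : Fin (n + 1) => (Fin.cons 1 (Fin.cons 0 x) : Fin (n + 3) → L)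
          (Fin.succ (Fin.succ i)))
        rw [v2]
        exact hU
      have e3 : ∀ᶠ p in 𝓝 (Fin.cons 1 (Fin.cons 0 x) : Fin (n + 3) → L),
          (fun i : Fin (n + 1) => p (Fin.succ (Fin.succ i))) ≠ 0 := by
        refine c2.continuousAt.eventually_ne ?_
        rw [v2]
        exact hx
      refine ⟨_, e0.and (e1.and (e2.and e3)), fun w _ hw hN t => ?_⟩
      obtain ⟨r, hr, h0, h1, h2, h3⟩ := hN
      simp only at h0 h1 h2 h3
      have hw' : eval w (Mon G (-(X 0) ^ (d + 1))) = 0 := hw
      have hp : eval₂ σ (fun i => r * σ (w i)) (Mon G (-(X 0) ^ (d + 1))) = 0 := by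
        have hBh : (-(X 0 : MvPolynomial (Fin (n + 2)) K) ^ (d + 1)).IsHomogeneous (d + 1) := by
          have := (isHomogeneous_X K (0 : Fin (n + 2))).pow (d + 1)
          rw [one_mul] at this
          exact this.neg
        rw [eval₂_scale σ (mon_hom hG hBh), eval₂_co, hw', map_zero, mul_zero]
      rw [mon_eval₂] at hp
      have hB : eval₂ σ (fun i : Fin (n + 2) => r * σ (w (Fin.succ i)))
          (-(X 0 : MvPolynomial (Fin (n + 2)) K) ^ (d + 1)) = -(r * σ (w 1)) ^ (d + 1) := by
        rw [eval₂_neg, eval₂_pow, eval₂_X]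
        rfl
      rw [hB] at hp
      have h4 := ha (fun i : Fin (n + 2) => r * σ (w (Fin.succ i)))
      have h5 : r * σ (w (Fin.succ 0)) = r * σ (w 1) := rfl
      simp only [h5] at h4
      have h6 : eval₂ σ (fun i : Fin (n + 2) => r * σ (w (Fin.succ i))) G * (r * σ (w 0)) =
          (r * σ (w 1)) ^ (d + 1) := by
        linear_combination hp
      have h7 : r * σ (w 1) = 0 := by
        by_contra hne
        have hpos : 0 < ‖r * σ (w 1)‖ := norm_pos_iff.2 hne
        have h8 := congrArg norm h6
        rw [norm_mul, norm_pow] at h8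
        have h9 : c * ‖r * σ (w 1)‖ ^ d * (1 / 2) ≤ ‖r * σ (w 1)‖ ^ (d + 1) := by
          rw [← h8]
          exact mul_le_mul h4 h0.le (by norm_num) (norm_nonneg _)
        have h10 : 0 < ‖r * σ (w 1)‖ ^ d := by positivity
        rw [pow_succ] at h9
        have h11 : c * (1 / 2) ≤ ‖r * σ (w 1)‖ := by
          by_contra hlt
          push Not at hlt
          have := mul_lt_mul_of_pos_left hlt h10
          linarith
        linarith
      have hw1 : w 1 = 0 := by
        rcases mul_eq_zero.1 h7 with h | h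
        · exact (hr h).elim
        · exact (map_eq_zero σ).1 h
      have hr0 : r * σ (w 0) ≠ 0 := by
        intro h
        rw [h, norm_zero] at h0
        norm_num at h0
      have h12 : eval₂ σ (fun i : Fin (n + 2) => r * σ (w (Fin.succ i))) G = 0 := by
        rw [h7, zero_pow (Nat.succ_ne_zero d)] at h6
        rcases mul_eq_zero.1 h6 with h | h
        · exact h
        · exact (hr0 h).elim
      rw [eval₂_scale σ hG, eval₂_co] at h12
      have h13 : eval (fun i : Fin (n + 2) => w (Fin.succ i)) G = 0 := by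
        rcases mul_eq_zero.1 h12 with h | h
        · exact ((pow_ne_zero _ hr) h).elim
        · exact (map_eq_zero σ).1 h
      set y : Fin (n + 1) → K := fun i => w (Fin.succ (Fin.succ i)) with hy
      have h14 : (fun i : Fin (n + 2) => w (Fin.succ i)) = (Fin.cons 0 y : Fin (n + 2) → K) := by
        funext i
        refine Fin.cases ?_ (fun i => ?_) i
        · rw [Fin.cons_zero]
          exact hw1
        · rw [Fin.cons_succ]
      rw [h14] at h13
      have hy0 : y ≠ 0 := by
        intro h
        apply h3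
        funext i
        have := congrFun h i
        change w (Fin.succ (Fin.succ i)) = 0 at this
        rw [this, map_zero, mul_zero]
        rfl
      rw [hren]
      exact hf y hy0 ((hb y hy0).1 h13) ⟨r, hr, h2⟩ t
    · rintro ⟨U', hU', hf⟩
      have hcc : Continuous fun p : L × (Fin (n + 1) → L) =>
          (Fin.cons p.1 (Fin.cons 0 p.2) : Fin (n + 3) → L) := by
        refine continuous_pi fun i => ?_
        refine Fin.cases ?_ (fun i => ?_) i
        · simpa using continuous_fst
        · refine Fin.cases ?_ (fun i => ?_) i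
          · simpa using continuous_const
          · simp only [Fin.cons_succ]
            exact (continuous_apply i).comp continuous_snd
      have h1 := (hcc.tendsto (1, x)) hU'
      rw [nhds_prod_eq] at h1
      obtain ⟨A, hA, B, hB, hAB⟩ := Filter.mem_prod_iff.1 h1
      refine ⟨B, hB, fun y hy hVy hN t => ?_⟩
      obtain ⟨r, hr, hm⟩ := hN
      have hct : Tendsto (fun s : L => r * s) (𝓝 (r⁻¹)) (𝓝 1) := by
        have : Tendsto (fun s : L => r * s) (𝓝 (r⁻¹)) (𝓝 (r * r⁻¹)) := tendsto_id.const_mul r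
        rwa [mul_inv_cancel₀ hr] at this
      obtain ⟨_, h3, ⟨s₀, rfl⟩⟩ := mem_closure_iff_nhds.1 (hσ r⁻¹) _ (hct hA)
      set w : Fin (n + 3) → K := Fin.cons s₀ (Fin.cons 0 y) with hw
      have hws : (fun i : Fin (n + 2) => w (Fin.succ i)) = (Fin.cons 0 y : Fin (n + 2) → K) := by
        funext i
        simp [hw]
      have hwss : (fun i : Fin (n + 1) => w (Fin.succ (Fin.succ i))) = y := by
        funext i
        simp [hw]
      have hw0 : w ≠ 0 := by
        intro h
        apply hy
        rw [← hwss, h]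
        rfl
      have hFw : eval w (Mon G (-(X 0) ^ (d + 1))) = 0 := by
        rw [mon_eval, hws, (hb y hy).2 hVy, zero_mul, zero_add, map_neg, map_pow, eval_X,
          Fin.cons_zero, zero_pow (Nat.succ_ne_zero d), neg_zero]
      have hNw : NR σ U' w := by
        refine ⟨r, hr, ?_⟩
        have h4 : (r * σ s₀, fun i => r * σ (y i)) ∈ A ×ˢ B := ⟨h3, hm⟩
        have h5 := hAB h4
        have h6 : (fun i => r * σ (w i)) =
            (Fin.cons (r * σ s₀) (Fin.cons 0 fun i => r * σ (y i)) : Fin (n + 3) → L) := by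
          funext i
          refine Fin.cases ?_ (fun i => ?_) i
          · simp [hw]
          · refine Fin.cases ?_ (fun i => ?_) i
            · simp [hw]
            · simp [hw]
        rw [h6]
        exact h5
      have h7 := hf w hw0 hFw hNw t
      rw [hren, hwss] at h7
      exact h7
  refine (hF.image fun J => {f | rename (fun i => Fin.succ (Fin.succ i)) f ∈ J}).subset ?_
  rintro _ ⟨x, hx, rfl⟩
  refine ⟨_, ⟨_, ?_, rfl⟩, (key x hx).symm⟩
  intro h
  have := congrFun h 0
  rw [Fin.cons_zero] at this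
  exact one_ne_zero this

end Pool.Agent.N763.MQ
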