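import Pool.Agent.N763.MQ.Mono

/-!
# Rational quartic hypersurfaces at the real places (helper763)
-/

set_option autoImplicit false

namespace Pool.Agent.N763.MQ

open MvPolynomial Filter Topology

/-- the cubic form `x_j z²` -/
noncomputable def cA {K : Type} [Field K] {N : ℕ} (j : Fin (N + 1)) :
    MvPolynomial (Fin (N + 2)) K := X (Fin.succ j) * X 0 ^ 2

/-- the quartic form `z⁴ + Q` -/
noncomputable def cB {K : Type} [Field K] {N : ℕ} (Q : MvPolynomial (Fin (N + 1)) K) :
    MvPolynomial (Fin (N + 2)) K := X 0 ^ 4 + rename Fin.succ Q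

theorem cA_hom {K : Type} [Field K] {N : ℕ} (j : Fin (N + 1)) :
    (cA (K := K) j).IsHomogeneous 3 :=
  (isHomogeneous_X K _).mul ((isHomogeneous_X K 0).pow 2)

theorem cB_hom {K : Type} [Field K] {N : ℕ} {Q : MvPolynomial (Fin (N + 1)) K}
    (hQ : Q.IsHomogeneous 4) : (cB Q).IsHomogeneous 4 := by
  have := (isHomogeneous_X K (0 : Fin (N + 2))).pow 4
  rw [one_mul] at this
  exact this.add hQ.rename_isHomogeneous

theorem cF_eval₂ {K S : Type} [Field K] [CommSemiring S] (σ : K →+* S) {N : ℕ} (j : Fin (N + 1))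
    (Q : MvPolynomial (Fin (N + 1)) K) (p : Fin (N + 3) → S) :
    eval₂ σ p (Mon (cA j) (cB Q)) = p (Fin.succ (Fin.succ j)) * p 1 ^ 2 * p 0 +
      (p 1 ^ 4 + eval₂ σ (fun i => p (Fin.succ (Fin.succ i))) Q) := by
  rw [mon_eval₂]
  unfold cA cB
  rw [eval₂_mul, eval₂_pow, eval₂_X, eval₂_X, eval₂_add, eval₂_pow, eval₂_X, eval₂_rename]
  rfl

theorem cF_eval {K : Type} [Field K] {N : ℕ} (j : Fin (N + 1))
    (Q : MvPolynomial (Fin (N + 1)) K) (p : Fin (N + 3) → K) :
    eval p (Mon (cA j) (cB Q)) = p (Fin.succ (Fin.succ j)) * p 1 ^ 2 * p 0 +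
      (p 1 ^ 4 + eval (fun i => p (Fin.succ (Fin.succ i))) Q) :=
  cF_eval₂ (RingHom.id K) j Q p

theorem cF_irr {K : Type} [Field K] {N : ℕ} (j : Fin (N + 1))
    {Q : MvPolynomial (Fin (N + 1)) K} (hQ : Q.IsHomogeneous 4) {y : Fin (N + 1) → K}
    (hy : eval y Q ≠ 0) : Irreducible (Mon (cA j) (cB Q)) := by
  classical
  unfold Mon
  have hv : ∀ H : MvPolynomial (Fin (N + 2)) K, (0 : Fin (N + 3)) ∉ (rename Fin.succ H).vars := by
    intro H h
    have := vars_rename Fin.succ H h
    obtain ⟨i, -, hi⟩ := Finset.mem_image.1 this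
    exact Fin.succ_ne_zero i hi
  have hB : ∀ p : Fin (N + 3) → K, eval p (rename Fin.succ (cB Q)) =
      p 1 ^ 4 + eval (fun i => p (Fin.succ (Fin.succ i))) Q := by
    intro p
    rw [eval_rename]
    unfold cB
    rw [map_add, map_pow, eval_X, eval_rename]
    rfl
  refine irreducible_mul_X_add _ _ 0 ?_ (hv _) (hv _) ?_
  · intro h
    have h1 : cA (K := K) j = 0 := rename_injective _ (Fin.succ_injective _) (by rw [h, map_zero])
    unfold cA at h1
    exact (mul_ne_zero (X_ne_zero _) (pow_ne_zero 2 (X_ne_zero _))) h1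
  · have h1 : IsRelPrime (X 1 : MvPolynomial (Fin (N + 3)) K) (rename Fin.succ (cB Q)) := by
      rw [(X_prime (R := K) (i := (1 : Fin (N + 3)))).irreducible.isRelPrime_iff_not_dvd]
      rintro ⟨H, hH⟩
      have h2 := congrArg (eval (Fin.cons 0 (Fin.cons 0 y) : Fin (N + 3) → K)) hH
      have h4 : (Fin.cons 0 (Fin.cons 0 y) : Fin (N + 3) → K) 1 = 0 := by
        rw [show (1 : Fin (N + 3)) = Fin.succ 0 from rfl, Fin.cons_succ, Fin.cons_zero]
      rw [hB, map_mul, eval_X, h4, zero_mul, zero_pow (by norm_num), zero_add] at h2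
      apply hy
      rw [← h2]
      congr 1
    have h2 : IsRelPrime (X (Fin.succ (Fin.succ j)) : MvPolynomial (Fin (N + 3)) K)
        (rename Fin.succ (cB Q)) := by
      rw [(X_prime (R := K) (i := (Fin.succ (Fin.succ j)))).irreducible.isRelPrime_iff_not_dvd]
      rintro ⟨H, hH⟩
      have h2 := congrArg (eval (Fin.cons 0 (Fin.cons 1 fun _ => 0) : Fin (N + 3) → K)) hH
      have h4 : (Fin.cons 0 (Fin.cons 1 fun _ => 0) : Fin (N + 3) → K) 1 = 1 := by
        rw [show (1 : Fin (N + 3)) = Fin.succ 0 from rfl, Fin.cons_succ, Fin.cons_zero]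
      have h5 : (Fin.cons 0 (Fin.cons 1 fun _ => 0) : Fin (N + 3) → K)
          (Fin.succ (Fin.succ j)) = 0 := by
        rw [Fin.cons_succ, Fin.cons_succ]
      have h6 : eval (fun i : Fin (N + 1) => (Fin.cons 0 (Fin.cons 1 fun _ => 0) :
          Fin (N + 3) → K) (Fin.succ (Fin.succ i))) Q = 0 := by
        have h7 : (fun i : Fin (N + 1) => (Fin.cons 0 (Fin.cons 1 fun _ => 0) :
            Fin (N + 3) → K) (Fin.succ (Fin.succ i))) = (0 : K) • (0 : Fin (N + 1) → K) := by
          funext i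
          simp
        rw [h7, eval_scale hQ, zero_pow (by norm_num), zero_mul]
      rw [hB, map_mul, eval_X, h4, h5, h6, zero_mul, one_pow, add_zero] at h2
      exact one_ne_zero h2
    have h3 : rename Fin.succ (cA (K := K) j) =
        X (Fin.succ (Fin.succ j)) * (X 1 : MvPolynomial (Fin (N + 3)) K) ^ 2 := by
      unfold cA
      rw [map_mul, map_pow, rename_X, rename_X]
      rfl
    rw [h3]
    exact h2.mul_left (h1.pow_left (m := 2))

/-- the key step at a real place -/
theorem of_Q {K : Type} [Field K] (σ : K →+* ℝ) (hσ : DenseRange σ) {N : ℕ}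
    {Q : MvPolynomial (Fin (N + 1)) K} (hQ : Q.IsHomogeneous 4)
    (hpos : ∀ p : Fin (N + 1) → ℝ, 0 ≤ eval₂ σ p Q)
    (hF : ∀ j : Fin (N + 1), FV σ fun y => eval y (Mon (cA j) (cB Q)) = 0) :
    FV σ fun y => eval y Q = 0 := by
  have key : ∀ (j : Fin (N + 1)) (x : Fin (N + 1) → ℝ), x j ≠ 0 →
      JV σ (fun y => eval y Q = 0) x =
      {f | rename (fun i => Fin.succ (Fin.succ i)) f ∈
        JV σ (fun y => eval y (Mon (cA j) (cB Q)) = 0)
          (Fin.cons (x j) (Fin.cons 0 x) : Fin (N + 3) → ℝ)} := by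
    intro j x hxj
    have hx : x ≠ 0 := fun h => hxj (by rw [h]; rfl)
    ext f
    have hren : ∀ (t : K) (w : Fin (N + 3) → K),
        eval (t • w) (rename (fun i => Fin.succ (Fin.succ i)) f) =
          eval (t • fun i : Fin (N + 1) => w (Fin.succ (Fin.succ i))) f := by
      intro t w
      rw [eval_rename]
      rfl
    constructor
    · rintro ⟨U, hU, hf⟩
      have c0 : Continuous fun p : Fin (N + 3) → ℝ => p 0 * p (Fin.succ (Fin.succ j)) :=
        (continuous_apply _).mul (continuous_apply _)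
      have c2 : Continuous fun p : Fin (N + 3) → ℝ =>
          (fun i : Fin (N + 1) => p (Fin.succ (Fin.succ i))) :=
        continuous_pi fun i => continuous_apply _
      have v2 : (fun i : Fin (N + 1) => (Fin.cons (x j) (Fin.cons 0 x) : Fin (N + 3) → ℝ)
          (Fin.succ (Fin.succ i))) = x := by
        funext i
        simp
      have e0 : ∀ᶠ p in 𝓝 (Fin.cons (x j) (Fin.cons 0 x) : Fin (N + 3) → ℝ),
          0 < p 0 * p (Fin.succ (Fin.succ j)) := by
        refine c0.continuousAt.eventually_const_lt ?_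
        change 0 < (Fin.cons (x j) (Fin.cons 0 x) : Fin (N + 3) → ℝ) 0 *
          (Fin.cons (x j) (Fin.cons 0 x) : Fin (N + 3) → ℝ) (Fin.succ (Fin.succ j))
        rw [Fin.cons_zero, Fin.cons_succ, Fin.cons_succ]
        exact mul_self_pos.2 hxj
      have e2 : ∀ᶠ p in 𝓝 (Fin.cons (x j) (Fin.cons 0 x) : Fin (N + 3) → ℝ),
          (fun i : Fin (N + 1) => p (Fin.succ (Fin.succ i))) ∈ U := by
        refine c2.continuousAt ?_
        change U ∈ 𝓝 (fun i : Fin (N + 1) => (Fin.cons (x j) (Fin.cons 0 x) : Fin (N + 3) → ℝ)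
          (Fin.succ (Fin.succ i)))
        rw [v2]
        exact hU
      have e3 : ∀ᶠ p in 𝓝 (Fin.cons (x j) (Fin.cons 0 x) : Fin (N + 3) → ℝ),
          (fun i : Fin (N + 1) => p (Fin.succ (Fin.succ i))) ≠ 0 := by
        refine c2.continuousAt.eventually_ne ?_
        rw [v2]
        exact hx
      refine ⟨_, e0.and (e2.and e3), fun w _ hw hN t => ?_⟩
      obtain ⟨r, hr, h0, h2, h3⟩ := hN
      simp only at h0 h2 h3
      have hw' : eval w (Mon (cA j) (cB Q)) = 0 := hw
      have hp : eval₂ σ (fun i => r * σ (w i)) (Mon (cA j) (cB Q)) = 0 := by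
        rw [eval₂_scale σ (mon_hom (cA_hom j) (cB_hom hQ)), eval₂_co, hw', map_zero, mul_zero]
      rw [cF_eval₂] at hp
      have hQ0 := hpos (fun i : Fin (N + 1) => r * σ (w (Fin.succ (Fin.succ i))))
      have h7 : r * σ (w 1) = 0 := by
        by_contra hne
        have h8 : 0 < (r * σ (w 1)) ^ 2 := by positivity
        have h9 : 0 < (r * σ (w 0)) * (r * σ (w (Fin.succ (Fin.succ j)))) * (r * σ (w 1)) ^ 2 :=
          mul_pos h0 h8
        have h10 : 0 ≤ (r * σ (w 1)) ^ 4 := by positivity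
        nlinarith
      have hw1 : w 1 = 0 := by
        rcases mul_eq_zero.1 h7 with h | h
        · exact (hr h).elim
        · exact (map_eq_zero σ).1 h
      have h12 : eval₂ σ (fun i : Fin (N + 1) => r * σ (w (Fin.succ (Fin.succ i)))) Q = 0 := by
        rw [h7] at hp
        linarith [hp]
      rw [eval₂_scale σ hQ, eval₂_co] at h12
      have h13 : eval (fun i : Fin (N + 1) => w (Fin.succ (Fin.succ i))) Q = 0 := by
        rcases mul_eq_zero.1 h12 with h | h
        · exact ((pow_ne_zero _ hr) h).elim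
        · exact (map_eq_zero σ).1 h
      have hy0 : (fun i : Fin (N + 1) => w (Fin.succ (Fin.succ i))) ≠ 0 := by
        intro h
        apply h3
        funext i
        have := congrFun h i
        change w (Fin.succ (Fin.succ i)) = 0 at this
        rw [this, map_zero, mul_zero]
        rfl
      rw [hren]
      exact hf _ hy0 h13 ⟨r, hr, h2⟩ t
    · rintro ⟨U', hU', hf⟩
      have hcc : Continuous fun p : ℝ × (Fin (N + 1) → ℝ) =>
          (Fin.cons p.1 (Fin.cons 0 p.2) : Fin (N + 3) → ℝ) := by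
        refine continuous_pi fun i => ?_
        refine Fin.cases ?_ (fun i => ?_) i
        · simpa using continuous_fst
        · refine Fin.cases ?_ (fun i => ?_) i
          · simpa using continuous_const
          · simp only [Fin.cons_succ]
            exact (continuous_apply i).comp continuous_snd
      have h1 := (hcc.tendsto (x j, x)) hU'
      rw [nhds_prod_eq] at h1
      obtain ⟨A, hA, B, hB, hAB⟩ := Filter.mem_prod_iff.1 h1
      refine ⟨B, hB, fun y hy hVy hN t => ?_⟩
      obtain ⟨r, hr, hm⟩ := hN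
      have hct : Tendsto (fun s : ℝ => r * s) (𝓝 (r⁻¹ * x j)) (𝓝 (x j)) := by
        have : Tendsto (fun s : ℝ => r * s) (𝓝 (r⁻¹ * x j)) (𝓝 (r * (r⁻¹ * x j))) :=
          tendsto_id.const_mul r
        rwa [mul_inv_cancel_left₀ hr] at this
      obtain ⟨_, h3, ⟨s₀, rfl⟩⟩ := mem_closure_iff_nhds.1 (hσ (r⁻¹ * x j)) _ (hct hA)
      set w : Fin (N + 3) → K := Fin.cons s₀ (Fin.cons 0 y) with hw
      have hwss : (fun i : Fin (N + 1) => w (Fin.succ (Fin.succ i))) = y := by
        funext i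
        simp [hw]
      have hw1 : w 1 = 0 := by
        rw [hw, show (1 : Fin (N + 3)) = Fin.succ 0 from rfl, Fin.cons_succ, Fin.cons_zero]
      have hw0 : w ≠ 0 := by
        intro h
        apply hy
        rw [← hwss, h]
        rfl
      have hFw : eval w (Mon (cA j) (cB Q)) = 0 := by
        rw [cF_eval, hwss, hw1, show eval y Q = 0 from hVy]
        ring
      have hNw : NR σ U' w := by
        refine ⟨r, hr, ?_⟩
        have h4 : (r * σ s₀, fun i => r * σ (y i)) ∈ A ×ˢ B := ⟨h3, hm⟩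
        have h5 := hAB h4
        have h6 : (fun i => r * σ (w i)) =
            (Fin.cons (r * σ s₀) (Fin.cons 0 fun i => r * σ (y i)) : Fin (N + 3) → ℝ) := by
          funext i
          refine Fin.cases ?_ (fun i => ?_) i
          · simp [hw]
          · refine Fin.cases ?_ (fun i => ?_) i
            · simp [hw]
            · simp [hw]
        rw [h6]
        exact h5
      have h7 := hf w hw0 hFw hNw t
      rw [hren, hwss] at h7
      exact h7
  have hfin : (⋃ j : Fin (N + 1), {J | ∃ x : Fin (N + 1) → ℝ, x j ≠ 0 ∧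
      J = JV σ (fun y => eval y Q = 0) x}).Finite := by
    refine Set.finite_iUnion fun j => ?_
    refine ((hF j).image fun J => {f | rename (fun i => Fin.succ (Fin.succ i)) f ∈ J}).subset ?_
    rintro _ ⟨x, hx, rfl⟩
    refine ⟨_, ⟨_, ?_, rfl⟩, (key j x hx).symm⟩
    intro h
    have := congrFun h 0
    rw [Fin.cons_zero] at this
    exact hx this
  refine hfin.subset ?_
  rintro _ ⟨x, hx, rfl⟩
  obtain ⟨j, hj⟩ := Function.ne_iff.1 hx
  exact Set.mem_iUnion.2 ⟨j, x, hj, rfl⟩

/-- at the real places rational quartic hypersurfaces suffice -/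
theorem main_real {K : Type} [Field K] (σ : K →+* ℝ) (hσ : DenseRange σ)
    (hyp : ∀ (n : ℕ) (A B : MvPolynomial (Fin (n + 1)) K), A ≠ 0 → A.IsHomogeneous 3 →
      B.IsHomogeneous 4 → Irreducible (Mon A B) → FV σ fun y => eval y (Mon A B) = 0)
    {n : ℕ} (S : Set (MvPolynomial (Fin (n + 1)) K)) (hS : ∀ f ∈ S, ∃ d : ℕ, f.IsHomogeneous d) :
    FV σ fun y => ∀ g ∈ S, eval y g = 0 := by
  classical
  have : CharZero K := σ.charZero
  obtain ⟨T, hTS, hT⟩ := fin_eqs S
  refine FV_congr σ (fun y _ => hT y) ?_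
  obtain ⟨D, m, q, hD, hq, h1, h2⟩ := exists_quartic σ T fun g hg => hS g (hTS hg)
  refine ver_FV σ hD (W := fun w => eval w (∑ i, q i ^ 2) = 0) (fun y _ hy => h1 y hy) h2 ?_
  -- renaming
  have hcard : Fintype.card (Fin D → Fin (n + 1)) ≠ 0 := Fintype.card_ne_zero
  obtain ⟨N, hN⟩ := Nat.exists_eq_succ_of_ne_zero hcard
  let e : (Fin D → Fin (n + 1)) ≃ Fin (N + 1) := Fintype.equivFinOfCardEq hN
  refine FV_rename σ e _ ?_
  have h3 : rename e (∑ i, q i ^ 2) = ∑ i, (rename e (q i)) ^ 2 := by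
    rw [map_sum]
    exact Finset.sum_congr rfl fun i _ => map_pow _ _ _
  have h4 : (rename e (∑ i, q i ^ 2)).IsHomogeneous 4 := by
    rw [h3]
    exact IsHomogeneous.sum _ _ _ fun i _ => ((hq i).rename_isHomogeneous (f := e)).pow 2
  set Q := rename e (∑ i, q i ^ 2) with hQ
  by_cases hV : ∀ y : Fin (N + 1) → K, y ≠ 0 → eval y Q = 0
  · refine FV_congr σ (fun y hy => ?_) (FV_low σ hσ (isHomogeneous_zero (Fin (N + 1)) K 0)
      (by omega))
    simp only [map_zero, true_iff]
    exact hV y hy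
  push Not at hV
  obtain ⟨y₀, -, hy₀⟩ := hV
  refine of_Q σ hσ h4 (fun p => ?_) fun j => ?_
  · rw [h3, eval₂_sum]
    exact Finset.sum_nonneg fun i _ => by rw [eval₂_pow]; exact sq_nonneg _
  · refine hyp (N + 1) (cA j) (cB Q) ?_ (cA_hom j) (cB_hom h4) (cF_irr j h4 hy₀)
    unfold cA
    exact mul_ne_zero (X_ne_zero _) (pow_ne_zero 2 (X_ne_zero _))

end Pool.Agent.N763.MQ
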