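import Pool.Agent.N763.MQ.Rank
import Pool.Agent.TH729.CV.Trans
import Pool.Agent.Helper413.Quad.Hom

/-!
# Quartic hypersurfaces (helper763)
-/

set_option autoImplicit false

namespace Pool.Agent.N763.MQ

open MvPolynomial Filter Topology
open Function (update)

theorem hom_totalDegree {K : Type} [Field K] {ι : Type} {g : MvPolynomial ι K}
    (h : ∃ d, g.IsHomogeneous d) : g.IsHomogeneous g.totalDegree := by
  obtain ⟨d, hd⟩ := h
  by_cases h0 : g = 0
  · subst h0
    exact isHomogeneous_zero _ _ _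
  · rw [hd.totalDegree h0]
    exact hd

theorem sq_sum_zero {K : Type} [Field K] (τ : K →+* ℝ) {I : Type} [Fintype I] (a : I → K)
    (h : ∑ i, a i ^ 2 = 0) (i : I) : a i = 0 := by
  have h1 : ∑ i, τ (a i) ^ 2 = 0 := by
    rw [← map_zero τ, ← h, map_sum]
    exact Finset.sum_congr rfl fun i _ => (map_pow τ _ _).symm
  rw [Finset.sum_eq_zero_iff_of_nonneg fun i _ => sq_nonneg _] at h1
  have h2 := h1 i (Finset.mem_univ i)
  have h3 : τ (a i) = 0 := pow_eq_zero_iff two_ne_zero |>.1 h2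
  exact (map_eq_zero τ).1 h3

theorem exists_quartic {K : Type} [Field K] (τ : K →+* ℝ) {ι : Type} [Fintype ι] [DecidableEq ι]
    (T : Finset (MvPolynomial ι K)) (hT : ∀ g ∈ T, ∃ d, g.IsHomogeneous d) :
    ∃ (D m : ℕ) (q : Fin m → MvPolynomial (Fin D → ι) K), D ≠ 0 ∧ (∀ i, (q i).IsHomogeneous 2) ∧
      (∀ y : ι → K, (∀ g ∈ T, eval y g = 0) → eval (ver D y) (∑ i, q i ^ 2) = 0) ∧
      (∀ w : (Fin D → ι) → K, w ≠ 0 → eval w (∑ i, q i ^ 2) = 0 →
        ∃ (c : K) (y : ι → K), c ≠ 0 ∧ y ≠ 0 ∧ (∀ g ∈ T, eval y g = 0) ∧ w = c • ver D y) := by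
  classical
  set D := T.sup totalDegree + 1 with hD
  have hle : ∀ g ∈ T, g.totalDegree ≤ D := fun g hg => (Finset.le_sup (f := totalDegree) hg).trans
    (Nat.le_succ _)
  have hl : ∀ (g : T) (j : ι), ∃ h : MvPolynomial (Fin D → ι) K, h.IsHomogeneous 1 ∧
      ∀ y : ι → K, eval (ver D y) h = eval y g.1 * y j ^ (D - g.1.totalDegree) := by
    intro g j
    have h1 : (g.1 * X j ^ (D - g.1.totalDegree)).IsHomogeneous (1 * D) := by
      have h2 := (hom_totalDegree (hT g.1 g.2)).mul
        ((isHomogeneous_X K j).pow (D - g.1.totalDegree))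
      have h3 : g.1.totalDegree + 1 * (D - g.1.totalDegree) = 1 * D := by
        have := hle g.1 g.2
        omega
      rwa [h3] at h2
    obtain ⟨h, hh, hv⟩ := grp_form D 1 h1
    refine ⟨h, hh, fun y => ?_⟩
    rw [hv, map_mul, map_pow, eval_X]
  choose l hl1 hl2 using hl
  let I : Type := (T × ι) ⊕ ((Fin D → ι) × (Fin D → ι) × Fin D × Fin D)
  let q' : I → MvPolynomial (Fin D → ι) K := Sum.elim (fun p => l p.1 p.2 ^ 2)
    (fun p => X p.1 * X p.2.1 - X (update p.1 p.2.2.1 (p.2.1 p.2.2.2)) *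
      X (update p.2.1 p.2.2.2 (p.1 p.2.2.1)))
  have hq' : ∀ i, (q' i).IsHomogeneous 2 := by
    rintro (p | p)
    · have := (hl1 p.1 p.2).pow 2
      rw [one_mul] at this
      exact this
    · exact ((isHomogeneous_X K _).mul (isHomogeneous_X K _)).sub
        ((isHomogeneous_X K _).mul (isHomogeneous_X K _))
  have hsum : ∀ w : (Fin D → ι) → K,
      eval w (∑ i : Fin (Fintype.card I), q' ((Fintype.equivFin I).symm i) ^ 2) =
        ∑ i : I, eval w (q' i) ^ 2 := by
    intro w
    rw [map_sum, ← Equiv.sum_comp (Fintype.equivFin I).symm]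
    exact Finset.sum_congr rfl fun i _ => map_pow _ _ _
  refine ⟨D, Fintype.card I, fun i => q' ((Fintype.equivFin I).symm i), Nat.succ_ne_zero _,
    fun i => hq' _, ?_, ?_⟩
  · intro y hy
    rw [hsum]
    refine Finset.sum_eq_zero fun i _ => ?_
    have : eval (ver D y) (q' i) = 0 := by
      rcases i with p | p
      · change eval (ver D y) (l p.1 p.2 ^ 2) = 0
        rw [map_pow, hl2, hy p.1.1 p.1.2, zero_mul, zero_pow two_ne_zero]
      · change eval (ver D y) (X p.1 * X p.2.1 - X (update p.1 p.2.2.1 (p.2.1 p.2.2.2)) *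
          X (update p.2.1 p.2.2.2 (p.1 p.2.2.1))) = 0
        rw [map_sub, map_mul, map_mul, eval_X, eval_X, eval_X, eval_X, sub_eq_zero]
        exact ver_Rk D y p.1 p.2.1 p.2.2.1 p.2.2.2
    rw [this, zero_pow two_ne_zero]
  · intro w hw h0
    rw [hsum] at h0
    have h1 := sq_sum_zero τ _ h0
    have h2 : Rk w := by
      intro α β i j
      have := h1 (Sum.inr (α, β, i, j))
      change eval w (X α * X β - X (update α i (β j)) * X (update β j (α i))) = 0 at this
      rwa [map_sub, map_mul, map_mul, eval_X, eval_X, eval_X, eval_X, sub_eq_zero] at this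
    obtain ⟨c, y, hc, hy, rfl⟩ := rank_one (Nat.succ_ne_zero _) w hw h2
    refine ⟨c, y, hc, hy, fun g hg => ?_, rfl⟩
    obtain ⟨j, hj⟩ := Function.ne_iff.1 hy
    have h3 := h1 (Sum.inl (⟨g, hg⟩, j))
    change eval (c • ver D y) (l ⟨g, hg⟩ j ^ 2) = 0 at h3
    rw [map_pow] at h3
    have h4 := pow_eq_zero_iff two_ne_zero |>.1 h3
    rw [eval_scale (hl1 _ _), hl2] at h4
    rcases mul_eq_zero.1 h4 with h5 | h5
    · exact ((pow_ne_zero _ hc) h5).elim
    · rcases mul_eq_zero.1 h5 with h6 | h6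
      · exact h6
      · exact ((pow_ne_zero _ hj) h6).elim

section low

variable {K : Type} [Field K] {L : Type} [NontriviallyNormedField L] [CompleteSpace L]
  [CharZero L] [ProperSpace L]

/-- forms of degree at most three (helper729) -/
theorem FV_low (σ : K →+* L) (hσ : DenseRange σ) {n d : ℕ} {F : MvPolynomial (Fin (n + 1)) K}
    (hF : F.IsHomogeneous d) (hd : d ≤ 3) : FV σ fun y => eval y F = 0 :=
  FV_of_zero σ F hF (Pool.Agent.TH729.CV.fin_ideals σ hσ hF hd)

theorem unit_of_zero {ι : Type} {F : MvPolynomial ι K} (h0 : F ≠ 0) (h : F.IsHomogeneous 0) :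
    IsUnit F := by
  have h1 : F.totalDegree = 0 := h.totalDegree h0
  rw [totalDegree_eq_zero_iff_eq_C] at h1
  rw [h1]
  refine (IsUnit.mk0 _ fun h2 => h0 ?_).map C
  rw [h1, h2, map_zero]

/-- all quartic forms from the irreducible ones -/
theorem FV_quartic (σ : K →+* L) (hσ : DenseRange σ) {n : ℕ} {F : MvPolynomial (Fin (n + 1)) K}
    (hF : F.IsHomogeneous 4) (hirr : Irreducible F → FV σ fun y => eval y F = 0) :
    FV σ fun y => eval y F = 0 := by
  by_cases h0 : F = 0
  · subst h0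
    exact FV_low σ hσ (isHomogeneous_zero _ _ 0) (by omega)
  by_cases hi : Irreducible F
  · exact hirr hi
  have hu : ¬ IsUnit F := by
    intro hu
    obtain ⟨G, hG⟩ := hu.exists_right_inv
    have h1 : (F * G).IsHomogeneous 0 := by
      rw [hG]; exact isHomogeneous_one _ _
    obtain ⟨a, b, ha, hb, hab⟩ := Pool.Agent.Helper413.Quad.isHomogeneous_of_mul
      (by rw [hG]; exact one_ne_zero) h1
    have := ha.inj_right hF h0
    omega
  rw [irreducible_iff] at hi
  push Not at hi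
  obtain ⟨G, H, hGH, hG, hH⟩ := hi hu
  have hne : G * H ≠ 0 := by rw [← hGH]; exact h0
  obtain ⟨a, b, ha, hb, hab⟩ := Pool.Agent.Helper413.Quad.isHomogeneous_of_mul hne
    (by rw [← hGH]; exact hF)
  have ha0 : a ≠ 0 := by
    rintro rfl
    exact hG (unit_of_zero (left_ne_zero_of_mul hne) ha)
  have hb0 : b ≠ 0 := by
    rintro rfl
    exact hH (unit_of_zero (right_ne_zero_of_mul hne) hb)
  refine FV_congr σ (fun y _ => ?_) (FV_union σ (FV_low σ hσ ha (by omega))
    (FV_low σ hσ hb (by omega)))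
  rw [hGH, map_mul, mul_eq_zero]

end low

end Pool.Agent.N763.MQ
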