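import Pool.Agent.N763.MQ.Ver

/-!
# The image of the Veronese map (helper763)
-/

set_option autoImplicit false

namespace Pool.Agent.N763.MQ

open MvPolynomial Filter Topology Function

/-- the equations of the Veronese image -/
def Rk {R : Type} [CommMonoid R] {ι : Type} {D : ℕ} (z : (Fin D → ι) → R) : Prop :=
  ∀ (α β : Fin D → ι) (i j : Fin D), z α * z β = z (update α i (β j)) * z (update β j (α i))

theorem ver_update {R : Type} [CommMonoid R] {ι : Type} {D : ℕ} (y : ι → R) (α : Fin D → ι)
    (i : Fin D) (b : ι) : ver D y (update α i b) = y b * ∏ x ∈ Finset.univ \ {i}, y (α x) := by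
  unfold ver
  have h1 : (fun x => y (update α i b x)) = update (fun x => y (α x)) i (y b) := by
    funext x
    by_cases hx : x = i
    · subst hx; simp
    · simp [hx]
  rw [show (∏ x, y (update α i b x)) = ∏ x, (update (fun x => y (α x)) i (y b)) x from
    Finset.prod_congr rfl fun x _ => congrFun h1 x]
  exact Finset.prod_update_of_mem (Finset.mem_univ i) _ _

theorem ver_Rk {R : Type} [CommMonoid R] {ι : Type} (D : ℕ) (y : ι → R) : Rk (ver D y) := by
  intro α β i j
  have h1 : ver D y α = y (α i) * ∏ x ∈ Finset.univ \ {i}, y (α x) := by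
    rw [← ver_update, update_eq_self]
  have h2 : ver D y β = y (β j) * ∏ x ∈ Finset.univ \ {j}, y (β x) := by
    rw [← ver_update, update_eq_self]
  rw [ver_update, ver_update, h1, h2]
  rw [mul_mul_mul_comm, mul_comm (y (α i)) (y (β j)), mul_mul_mul_comm]

theorem rank_one {K : Type} [Field K] {ι : Type} {D : ℕ} (hD : D ≠ 0) (z : (Fin D → ι) → K)
    (hz : z ≠ 0) (hR : Rk z) :
    ∃ (c : K) (y : ι → K), c ≠ 0 ∧ y ≠ 0 ∧ z = c • ver D y := by
  classical
  obtain ⟨m, rfl⟩ := Nat.exists_eq_succ_of_ne_zero hD
  obtain ⟨α, hα⟩ := Function.ne_iff.1 hz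
  set k := α 0 with hk
  have h1 : ∀ s : Finset (Fin (m + 1)), z (fun i => if i ∈ s then k else α i) ≠ 0 := by
    intro s
    induction s using Finset.induction_on with
    | empty => simpa using hα
    | insert i s hi ih =>
      set β : Fin (m + 1) → ι := fun j => if j ∈ s then k else α j with hβ
      have hβ0 : β 0 = k := by
        rw [hβ]; simp [hk]
      have h2 := hR β β i 0
      have h3 : z (update β i (β 0)) ≠ 0 := by
        intro h
        rw [h, zero_mul] at h2
        exact ih (mul_self_eq_zero.1 h2)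
      have h4 : update β i (β 0) = fun j => if j ∈ insert i s then k else α j := by
        funext j
        by_cases hj : j = i
        · subst hj; simp [hβ0]
        · simp [hj, hβ]
      rwa [h4] at h3
  have hγ : z (fun _ => k) ≠ 0 := by simpa using h1 Finset.univ
  set γ : Fin (m + 1) → ι := fun _ => k with hγd
  set y : ι → K := fun j => z (update γ 0 j) with hy
  have h5 : ∀ (α : Fin (m + 1) → ι) (s : Finset (Fin (m + 1))),
      z (fun i => if i ∈ s then α i else k) * z γ ^ s.card = z γ * ∏ i ∈ s, y (α i) := by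
    intro α s
    induction s using Finset.induction_on with
    | empty => simp [hγd]
    | insert i s hi ih =>
      set β : Fin (m + 1) → ι := fun j => if j ∈ insert i s then α j else k with hβ
      have h2 := hR β γ i 0
      have h3 : update β i (γ 0) = fun j => if j ∈ s then α j else k := by
        funext j
        by_cases hj : j = i
        · subst hj; simp [hγd, hi]
        · simp [hj, hβ]
      have h4 : β i = α i := by simp [hβ]
      rw [h3, h4] at h2
      rw [Finset.card_insert_of_notMem hi, Finset.prod_insert hi, pow_succ, mul_comm (z γ ^ s.card),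
        ← mul_assoc, h2]
      have h6 : z (update γ 0 (α i)) = y (α i) := rfl
      rw [h6]
      calc _ = (z (fun j => if j ∈ s then α j else k) * z γ ^ s.card) * y (α i) := by ring
        _ = _ := by rw [ih]; ring
  refine ⟨z γ / z γ ^ (m + 1), y, div_ne_zero hγ (pow_ne_zero _ hγ), ?_, ?_⟩
  · intro h
    have h6 := congrFun h k
    have h7 : update γ 0 k = γ := by
      rw [hγd]
      exact update_eq_self 0 _
    apply hγ
    rw [← h7]
    exact h6
  · funext β
    have h6 := h5 β Finset.univ
    simp only [Finset.mem_univ, if_true, Finset.card_univ, Fintype.card_fin] at h6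
    rw [Pi.smul_apply, smul_eq_mul]
    unfold ver
    rw [div_mul_eq_mul_div, ← h6, mul_div_cancel_right₀ _ (pow_ne_zero _ hγ)]

theorem ver_cont {L : Type} [NontriviallyNormedField L] {ι : Type} (D : ℕ) :
    Continuous (ver D : (ι → L) → _) :=
  continuous_pi fun α => continuous_finsetProd _ fun i _ => continuous_apply (α i)

theorem ver_ne {R : Type} [CommRing R] [IsDomain R] {ι : Type} (D : ℕ) (y : ι → R) (hy : y ≠ 0) :
    ver D y ≠ 0 := by
  obtain ⟨k, hk⟩ := Function.ne_iff.1 hy
  intro h
  have := congrFun h fun _ => k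
  unfold ver at this
  rw [Finset.prod_const] at this
  exact pow_ne_zero _ hk this

theorem ver_scale {K L : Type} [Field K] [Field L] (σ : K →+* L) {ι : Type} (D : ℕ) (c : L)
    (y : ι → K) : ver D (fun i => c * σ (y i)) = fun j => c ^ D * σ (ver D y j) := by
  funext α
  unfold ver
  rw [Finset.prod_mul_distrib, Finset.prod_const, Finset.card_univ, Fintype.card_fin, map_prod]

theorem ver_near {K L : Type} [Field K] [NontriviallyNormedField L] (σ : K →+* L) {ι : Type}
    {D : ℕ} (hD : D ≠ 0) (x : ι → L) (hx : x ≠ 0) (U : Set (ι → L)) (hU : U ∈ nhds x) :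
    ∃ U' ∈ nhds (ver D x), ∀ y : ι → K, y ≠ 0 → NR σ U' (ver D y) → NR σ U y := by
  classical
  obtain ⟨m, rfl⟩ := Nat.exists_eq_succ_of_ne_zero hD
  obtain ⟨k, hk⟩ := Function.ne_iff.1 hx
  have hk' : x k ≠ 0 := hk
  have e1 : ∀ {R : Type} [CommMonoid R] (y : ι → R),
      ver (m + 1) y (fun _ => k) = y k ^ (m + 1) := by
    intro R _ y
    unfold ver
    rw [Finset.prod_const, Finset.card_univ, Fintype.card_fin]
  have e2 : ∀ {R : Type} [CommMonoid R] (y : ι → R) (j : ι),
      ver (m + 1) y (update (fun _ => k) 0 j) = y j * y k ^ m := by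
    intro R _ y j
    unfold ver
    rw [Fin.prod_univ_succ]
    simp
  set inv : ((Fin (m + 1) → ι) → L) → ι → L :=
    fun z j => z (update (fun _ => k) 0 j) / z (fun _ => k) * x k with hinv
  have h1 : inv (ver (m + 1) x) = x := by
    funext j
    rw [hinv]
    simp only
    rw [e1, e2, pow_succ]
    field_simp
  have h2 : ver (m + 1) x (fun _ => k) ≠ 0 := by
    rw [e1]; exact pow_ne_zero _ hk'
  have h3 : ContinuousAt inv (ver (m + 1) x) := by
    rw [continuousAt_pi]
    intro j
    have ha : ContinuousAt (fun z : (Fin (m + 1) → ι) → L => z (update (fun _ => k) 0 j))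
        (ver (m + 1) x) := (continuous_apply _).continuousAt
    have hb : ContinuousAt (fun z : (Fin (m + 1) → ι) → L => z (fun _ => k))
        (ver (m + 1) x) := (continuous_apply _).continuousAt
    exact (ha.div hb h2).mul continuousAt_const
  have h4 : ∀ᶠ z in nhds (ver (m + 1) x), inv z ∈ U := by
    have : U ∈ nhds (inv (ver (m + 1) x)) := by rw [h1]; exact hU
    exact h3 this
  have h5 : ∀ᶠ z : (Fin (m + 1) → ι) → L in nhds (ver (m + 1) x), z (fun _ => k) ≠ 0 :=
    (continuous_apply _).continuousAt.eventually_ne h2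
  refine ⟨{z | inv z ∈ U ∧ z (fun _ => k) ≠ 0}, h4.and h5, fun y _ hN => ?_⟩
  obtain ⟨c, hc, hm1, hm2⟩ := hN
  simp only at hm2
  rw [e1, map_pow] at hm2
  have hyk : σ (y k) ≠ 0 := by
    intro h
    apply hm2
    rw [h, zero_pow (Nat.succ_ne_zero m), mul_zero]
  refine ⟨x k / σ (y k), div_ne_zero hk' hyk, ?_⟩
  have h6 : (fun i => x k / σ (y k) * σ (y i)) =
      inv (fun α => c * σ (ver (m + 1) y α)) := by
    funext j
    rw [hinv]
    simp only
    rw [e1, e2, map_mul, map_pow, map_pow, pow_succ]
    field_simp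
  rw [h6]
  exact hm1

/-- the transfer along the Veronese map -/
theorem ver_FV {K L : Type} [Field K] [Infinite K] [NontriviallyNormedField L] (σ : K →+* L)
    {ι : Type} {D : ℕ} (hD : D ≠ 0) {V : (ι → K) → Prop} {W : ((Fin D → ι) → K) → Prop}
    (h1 : ∀ y, y ≠ 0 → V y → W (ver D y))
    (h2 : ∀ w, w ≠ 0 → W w → ∃ (c : K) (y : ι → K), c ≠ 0 ∧ y ≠ 0 ∧ V y ∧ w = c • ver D y)
    (hW : FV σ W) : FV σ V :=
  transfer σ (ver D) (ver D) D (ver_cont D) (ver_scale σ D) (ver_ne D) h1 (ver_ne D) h2
    (fun x hx U hU => ver_near σ hD x hx U hU) (exists_T D hD) hW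

/-- renaming the coordinates -/
theorem FV_rename {K L : Type} [Field K] [NontriviallyNormedField L] (σ : K →+* L) {ι κ : Type}
    (e : ι ≃ κ) (F : MvPolynomial ι K) (h : FV σ fun y : κ → K => eval y (rename e F) = 0) :
    FV σ fun y : ι → K => eval y F = 0 := by
  classical
  refine transfer σ (fun y => y ∘ e.symm) (fun y => y ∘ e.symm) 1 ?_ ?_ ?_ ?_ ?_ ?_ ?_ ?_ h
  · exact continuous_pi fun i => continuous_apply _
  · intro c y
    funext j
    simp
  · intro x hx h0
    apply hx
    funext i
    have := congrFun h0 (e i)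
    simpa using this
  · intro y _ hV
    rw [eval_rename]
    have : (y ∘ e.symm) ∘ e = y := by
      funext i; simp
    rw [this]
    exact hV
  · intro x hx h0
    apply hx
    funext i
    have := congrFun h0 (e i)
    simpa using this
  · intro w hw hW
    refine ⟨1, w ∘ e, one_ne_zero, ?_, ?_, ?_⟩
    · intro h0
      apply hw
      funext i
      have := congrFun h0 (e.symm i)
      simpa using this
    · rw [eval_rename] at hW
      exact hW
    · funext i
      simp
  · intro x _ U hU
    have hc : Continuous fun z : κ → L => (z ∘ e : ι → L) :=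
      continuous_pi fun i => continuous_apply _
    have hx : (x ∘ e.symm) ∘ e = x := by
      funext i; simp
    refine ⟨(fun z : κ → L => (z ∘ e : ι → L)) ⁻¹' U, ?_, ?_⟩
    · apply hc.continuousAt
      change U ∈ 𝓝 ((x ∘ e.symm) ∘ e)
      rw [hx]
      exact hU
    · rintro y _ ⟨c, hc, hm⟩
      refine ⟨c, hc, ?_⟩
      have h2 : (fun i => c * σ (y i)) = ((fun j => c * σ ((y ∘ e.symm) j)) ∘ e) := by
        funext i; simp
      rw [h2]
      exact hm
  · intro f
    refine ⟨{rename e f}, fun y => ?_⟩
    simp only [Finset.mem_singleton, forall_eq]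
    refine forall_congr' fun t => ?_
    rw [eval_rename]
    have : (t • (y ∘ e.symm)) ∘ e = t • y := by
      funext i; simp
    rw [this]

end Pool.Agent.N763.MQ
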