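import Pool.Agent.N763.MQ.Core

/-!
# The Veronese map with ordered tuples (helper763)
-/

set_option autoImplicit false

namespace Pool.Agent.N763.MQ

open MvPolynomial Filter Topology

/-- the Veronese map -/
def ver {R : Type} [CommMonoid R] {ι : Type} (D : ℕ) (y : ι → R) : (Fin D → ι) → R :=
  fun α => ∏ i, y (α i)

/-- grouping the factors of a monomial -/
theorem grp {K : Type} [Field K] {ι : Type} (D : ℕ) : ∀ (d : ℕ) (l : List ι), l.length = d * D →
    ∃ h : MvPolynomial (Fin D → ι) K, h.IsHomogeneous d ∧
      ∀ y : ι → K, eval (ver D y) h = (l.map y).prod := by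
  intro d
  induction d with
  | zero =>
    intro l hl
    have : l = [] := List.length_eq_zero_iff.1 (by omega)
    subst this
    exact ⟨1, isHomogeneous_one _ _, fun y => by simp⟩
  | succ d ih =>
    intro l hl
    obtain ⟨h, hh, hv⟩ := ih (l.drop D) (by rw [List.length_drop, hl]; rw [Nat.succ_mul]; omega)
    have hlt : (l.take D).length = D := by
      rw [List.length_take, hl, Nat.succ_mul]; omega
    refine ⟨X (fun i => (l.take D).get (i.cast hlt.symm)) * h, ?_, fun y => ?_⟩
    · have := (isHomogeneous_X K (fun i : Fin D => (l.take D).get (i.cast hlt.symm))).mul hh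
      rwa [add_comm] at this
    · rw [map_mul, eval_X, hv]
      conv_rhs => rw [← List.take_append_drop D l, List.map_append, List.prod_append]
      congr 1
      unfold ver
      have h1 : ∏ i : Fin (l.take D).length, y ((l.take D).get i) = ((l.take D).map y).prod := by
        have h2 : (l.take D).map y = List.ofFn (y ∘ (l.take D).get) := by
          rw [← List.map_ofFn, List.ofFn_get]
        rw [h2, List.prod_ofFn]
        rfl
      rw [← h1]
      exact Fintype.prod_equiv (finCongr hlt.symm) _ _ (fun i => rfl)

theorem prod_map_toMultiset {α M : Type} [CommMonoid M] (d : α →₀ ℕ) (x : α → M) :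
    (d.toMultiset.map x).prod = d.prod fun i k => x i ^ k := by
  classical
  induction d using Finsupp.induction_linear with
  | zero => simp
  | add f g hf hg =>
    rw [map_add, Multiset.map_add, Multiset.prod_add, hf, hg, Finsupp.prod_add_index']
    · intro i
      rw [pow_zero]
    · intro i a b
      rw [pow_add]
  | single a n =>
    rw [Finsupp.toMultiset_single, Multiset.map_nsmul, Multiset.prod_nsmul,
      Multiset.map_singleton, Multiset.prod_singleton, Finsupp.prod_single_index]
    rw [pow_zero]

/-- forms of degree `d * D` are forms of degree `d` in the coordinates of the Veronese map -/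
theorem grp_form {K : Type} [Field K] {ι : Type} (D d : ℕ) {g : MvPolynomial ι K}
    (hg : g.IsHomogeneous (d * D)) :
    ∃ h : MvPolynomial (Fin D → ι) K, h.IsHomogeneous d ∧
      ∀ y : ι → K, eval (ver D y) h = eval y g := by
  classical
  have h1 : ∀ e : ι →₀ ℕ, ∃ h : MvPolynomial (Fin D → ι) K, e ∈ g.support → h.IsHomogeneous d ∧
      ∀ y : ι → K, eval (ver D y) h = e.prod fun i k => y i ^ k := by
    intro e
    by_cases he : e ∈ g.support
    · obtain ⟨h, hh, hv⟩ := grp (K := K) D d e.toMultiset.toList (by
        rw [Multiset.length_toList, Finsupp.card_toMultiset]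
        exact (hg.degree_eq_sum_deg_support he).symm)
      refine ⟨h, fun _ => ⟨hh, fun y => ?_⟩⟩
      rw [hv]
      have h2 : (e.toMultiset.toList.map y).prod = (e.toMultiset.map y).prod := by
        rw [← Multiset.prod_coe, ← Multiset.map_coe, Multiset.coe_toList]
      rw [h2, prod_map_toMultiset]
    · exact ⟨0, fun h => (he h).elim⟩
  choose h hh using h1
  refine ⟨∑ e ∈ g.support, C (g.coeff e) * h e, ?_, fun y => ?_⟩
  · refine IsHomogeneous.sum _ _ _ fun e he => ?_
    have := (isHomogeneous_C (Fin D → ι) (g.coeff e)).mul (hh e he).1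
    rwa [zero_add] at this
  · rw [map_sum, eval_eq]
    refine Finset.sum_congr rfl fun e he => ?_
    rw [map_mul, eval_C, (hh e he).2]
    rfl

/-- a polynomial vanishes on the line iff its homogeneous components vanish -/
theorem line_iff {K : Type} [Field K] [Infinite K] {ι : Type} (f : MvPolynomial ι K)
    (y : ι → K) : (∀ t : K, eval (t • y) f = 0) ↔
      ∀ d ∈ Finset.range (f.totalDegree + 1), eval y (homogeneousComponent d f) = 0 := by
  have h1 : ∀ t : K, eval (t • y) f = ∑ d ∈ Finset.range (f.totalDegree + 1),
      t ^ d * eval y (homogeneousComponent d f) := by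
    intro t
    conv_lhs => rw [← sum_homogeneousComponent f, map_sum]
    exact Finset.sum_congr rfl fun d _ => eval_scale (homogeneousComponent_isHomogeneous d f) t y
  constructor
  · intro h d hd
    have h2 : (∑ d ∈ Finset.range (f.totalDegree + 1),
        Polynomial.C (eval y (homogeneousComponent d f)) * Polynomial.X ^ d : Polynomial K) = 0 := by
      refine Polynomial.funext fun t => ?_
      rw [Polynomial.eval_finsetSum, Polynomial.eval_zero, ← h t, h1]
      refine Finset.sum_congr rfl fun d _ => ?_
      rw [Polynomial.eval_mul, Polynomial.eval_C, Polynomial.eval_pow, Polynomial.eval_X, mul_comm]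
    have h3 := congrArg (fun p => Polynomial.coeff p d) h2
    simp only [Polynomial.finsetSum_coeff, Polynomial.coeff_C_mul, Polynomial.coeff_X_pow,
      Polynomial.coeff_zero, mul_ite, mul_one, mul_zero] at h3
    rwa [Finset.sum_ite_eq, if_pos hd] at h3
  · intro h t
    rw [h1]
    exact Finset.sum_eq_zero fun d hd => by rw [h d hd, mul_zero]

/-- the test polynomials -/
theorem exists_T {K : Type} [Field K] [Infinite K] {ι : Type} (D : ℕ) (hD : D ≠ 0)
    (f : MvPolynomial ι K) : ∃ T : Finset (MvPolynomial (Fin D → ι) K), ∀ y : ι → K,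
      (∀ t : K, eval (t • y) f = 0) ↔ ∀ h ∈ T, ∀ t : K, eval (t • ver D y) h = 0 := by
  classical
  have h1 : ∀ d : ℕ, ∃ h : MvPolynomial (Fin D → ι) K, h.IsHomogeneous d ∧
      ∀ y : ι → K, eval (ver D y) h = eval y (homogeneousComponent d f) ^ D := by
    intro d
    obtain ⟨h, hh, hv⟩ := grp_form D d
      ((homogeneousComponent_isHomogeneous d f).pow D)
    exact ⟨h, hh, fun y => by rw [hv, map_pow]⟩
  choose h hh hv using h1
  refine ⟨(Finset.range (f.totalDegree + 1)).image h, fun y => ?_⟩
  rw [line_iff]
  simp only [Finset.forall_mem_image]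
  refine forall₂_congr fun d _ => ?_
  constructor
  · intro h0 t
    rw [eval_scale (hh d), hv, h0, zero_pow hD, mul_zero]
  · intro h0
    have := h0 1
    rw [one_smul, hv] at this
    exact pow_eq_zero_iff hD |>.1 this

end Pool.Agent.N763.MQ
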